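import Pool.Agent.H.MP_58d537_lc.A20.Restrict

/-!
# Averaging out a set of coordinates
-/

set_option autoImplicit false

namespace Pool.Agent.H.MP_58d537_lc.AAP

open Finset Pool.Agent.H.MP_58d537_lc.A20

/-- The average of `p` over the coordinates in `H`. -/
noncomputable def avH {N : ℕ} (H : Finset (Fin N)) (p : (Fin N → Bool) → ℝ)
    (x : Fin N → Bool) : ℝ := avg (fun h => p (ov H h x))

theorem avH_empty {N : ℕ} (p : (Fin N → Bool) → ℝ) (x : Fin N → Bool) : avH ∅ p x = p x := by
  unfold avH
  have h : ∀ h : Fin N → Bool, ov ∅ h x = x := by
    intro h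
    funext i
    simp [ov]
  simp only [h]
  exact avg_const _

private theorem Avg_flip_comm {N : ℕ} (x : Fin N → Bool) (i j : Fin N) :
    flip (flip x i) j = flip (flip x j) i := by
  by_cases h : i = j
  · rw [h]
  · funext l
    unfold A20.flip
    by_cases hi : l = i
    · subst hi
      simp [Function.update_of_ne h]
    · by_cases hj : l = j
      · subst hj
        simp [Function.update_of_ne hi]
      · simp [Function.update_of_ne hi, Function.update_of_ne hj]

private theorem Avg_pair {N : ℕ} (H : Finset (Fin N)) {i : Fin N} (hi : i ∉ H)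
    (p : (Fin N → Bool) → ℝ) (x h : Fin N → Bool) :
    p (ov (insert i H) h x) + p (ov (insert i H) (flip h i) x) =
      p (ov H h x) + p (ov H h (flip x i)) := by
  by_cases hx : h i = x i
  · have h1 : ov (insert i H) h x = ov H h x := by
      funext l
      unfold ov
      by_cases hl : l = i
      · subst hl
        simp [hi, hx]
      · simp [hl]
    have h2 : ov (insert i H) (flip h i) x = ov H h (flip x i) := by
      funext l
      unfold ov A20.flip
      by_cases hl : l = i
      · subst hl
        simp [hi, hx]
      · simp [hl, Function.update_of_ne hl]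
    rw [h1, h2]
  · have hx' : h i = !(x i) := Bool.eq_not.2 hx
    have h1 : ov (insert i H) h x = ov H h (flip x i) := by
      funext l
      unfold ov A20.flip
      by_cases hl : l = i
      · subst hl
        simp [hi, hx']
      · simp [hl, Function.update_of_ne hl]
    have h2 : ov (insert i H) (flip h i) x = ov H h x := by
      funext l
      unfold ov A20.flip
      by_cases hl : l = i
      · subst hl
        simp [hi, hx']
      · simp [hl, Function.update_of_ne hl]
    rw [h1, h2, add_comm]

/-- `ov (insert i H) h x` is `ov H h x` with the `i`-th coordinate replaced by `h i`; average over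
`h i` (replace `h` by `flip h i`: `ov H (flip h i) z = ov H h z` as `i ∉ H`, `avg_flip`). -/
theorem avH_insert {N : ℕ} (H : Finset (Fin N)) {i : Fin N} (hi : i ∉ H)
    (p : (Fin N → Bool) → ℝ) (x : Fin N → Bool) :
    avH (insert i H) p x = (avH H p x + avH H p (flip x i)) / 2 := by
  have h1 : avH (insert i H) p x + avH (insert i H) p x = avH H p x + avH H p (flip x i) := by
    unfold avH
    conv_lhs =>
      rhs
      rw [← avg_flip i fun h => p (ov (insert i H) h x)]
    rw [← avg_add, ← avg_add]
    congr 1
    funext h
    exact Avg_pair H hi p x h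
  linarith

/-- The average is preserved (induction on `H`, `avH_insert`, `avg_flip`). -/
theorem avg_avH {N : ℕ} (H : Finset (Fin N)) (p : (Fin N → Bool) → ℝ) :
    avg (avH H p) = avg p := by
  classical
  induction H using Finset.induction_on with
  | empty =>
    congr 1
    funext x
    exact avH_empty p x
  | insert i H hi ih =>
    have h1 : avH (insert i H) p = fun x => (1 / 2) * (avH H p x + avH H p (flip x i)) := by
      funext x
      rw [avH_insert H hi]
      ring
    rw [h1, avg_const_mul, avg_add, avg_flip i (avH H p)]
    have h2 : avg (fun x => avH H p x) = avg p := ih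
    rw [h2]
    ring

/-- Averaging does not increase influences (induction on `H`; `flip` of different coordinates
commute; `((a+b)/2)² ≤ (a²+b²)/2` and `avg_flip`). -/
theorem inf_avH {N : ℕ} (H : Finset (Fin N)) (p : (Fin N → Bool) → ℝ) (j : Fin N) :
    avg (fun x => ((avH H p x - avH H p (flip x j)) / 2) ^ 2) ≤
      avg (fun x => ((p x - p (flip x j)) / 2) ^ 2) := by
  classical
  induction H using Finset.induction_on with
  | empty => simp only [avH_empty, le_refl]
  | insert i H hi ih =>
    refine le_trans ?_ ih
    have h1 : ∀ x, ((avH (insert i H) p x - avH (insert i H) p (flip x j)) / 2) ^ 2 ≤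
        (1 / 2) * (((avH H p x - avH H p (flip x j)) / 2) ^ 2 +
          ((avH H p (flip x i) - avH H p (flip (flip x i) j)) / 2) ^ 2) := by
      intro x
      rw [avH_insert H hi, avH_insert H hi, Avg_flip_comm x j i]
      nlinarith [sq_nonneg ((avH H p x - avH H p (flip x j)) -
        (avH H p (flip x i) - avH H p (flip (flip x i) j)))]
    refine (avg_mono h1).trans ?_
    rw [avg_const_mul, avg_add,
      avg_flip i (fun x => ((avH H p x - avH H p (flip x j)) / 2) ^ 2)]
    linarith

/-- **Efron–Stein for a part of the coordinates**: `E p² - E (avH H p)² ≤ ∑_{i ∈ H} Inf_i p`.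
Induction on `H`: with `g = avH H p`, `E g² - E ((g + g∘flip_i)/2)² = E ((g - g∘flip_i)/2)²`, then
`inf_avH`. -/
theorem efron_part {N : ℕ} (H : Finset (Fin N)) (p : (Fin N → Bool) → ℝ) :
    avg (fun x => p x ^ 2) - avg (fun x => avH H p x ^ 2) ≤
      ∑ i ∈ H, avg (fun x => ((p x - p (flip x i)) / 2) ^ 2) := by
  classical
  induction H using Finset.induction_on with
  | empty => simp only [avH_empty, sub_self, sum_empty, le_refl]
  | insert i H hi ih =>
    rw [sum_insert hi]
    have h1 : ∀ x, avH (insert i H) p x ^ 2 =
        (1 / 2) * (avH H p x ^ 2 + avH H p (flip x i) ^ 2) -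
          ((avH H p x - avH H p (flip x i)) / 2) ^ 2 := by
      intro x
      rw [avH_insert H hi]
      ring
    have h2 := inf_avH H p i
    simp only [h1]
    rw [avg_sub, avg_const_mul, avg_add, avg_flip i (fun x => avH H p x ^ 2)]
    linarith

end Pool.Agent.H.MP_58d537_lc.AAP
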