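import Pool.Agent.H.MP_58d537_lc.AAP.Avg

set_option autoImplicit false

namespace Pool.Agent.H.MP_58d537_lc.AAP

open Finset Pool.Agent.H.MP_58d537_lc.A20

/-- The averaged weights, `0` on the coordinates in `H`. -/
noncomputable def qH {N : ℕ} (H : Finset (Fin N)) (q : (Fin N → Bool) → Fin N → ℝ)
    (x : Fin N → Bool) (i : Fin N) : ℝ := if i ∈ H then 0 else avH H (fun z => q z i) x

theorem avgB_abs {N : ℕ} (f : (Fin N → Bool) → ℝ) : |avg f| ≤ avg (fun x => |f x|) := by
  unfold avg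
  rw [abs_div, abs_of_pos (show (0 : ℝ) < 2 ^ N by positivity)]
  exact div_le_div_of_nonneg_right (abs_sum_le_sum_abs _ _) (by positivity)

/-- The averaged weights are certificates of the averaged function:
`|p (ov H h x) - p (ov H h y)| ≤ ∑_{i ∉ H, x_i ≠ y_i} q (ov H h x) i`, average over `h`. -/
theorem cert_avH {N : ℕ} (H : Finset (Fin N)) (p : (Fin N → Bool) → ℝ)
    (q : (Fin N → Bool) → Fin N → ℝ) (hq : ∀ x i, 0 ≤ q x i)
    (hc : ∀ x y, |p x - p y| ≤ ∑ i ∈ univ.filter (fun i => x i ≠ y i), q x i)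
    (x y : Fin N → Bool) :
    |avH H p x - avH H p y| ≤ ∑ i ∈ univ.filter (fun i => x i ≠ y i), qH H q x i := by
  have h1 : avH H p x - avH H p y = avg (fun h => p (ov H h x) - p (ov H h y)) := by
    unfold avH
    rw [avg_sub]
  have h2 : ∀ h : Fin N → Bool, |p (ov H h x) - p (ov H h y)| ≤
      ∑ i ∈ univ.filter (fun i => x i ≠ y i), (if i ∈ H then 0 else q (ov H h x) i) := by
    intro h
    refine (hc _ _).trans ?_
    rw [Finset.sum_filter, Finset.sum_filter]
    apply Finset.sum_le_sum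
    intro i _
    by_cases hi : i ∈ H
    · simp [ov, hi]
    · simp [ov, hi]
  rw [h1]
  refine (avgB_abs _).trans ((avg_mono h2).trans ?_)
  rw [avg_sum]
  apply Finset.sum_le_sum
  intro i _
  unfold qH
  by_cases hi : i ∈ H
  · simp only [if_pos hi]
    rw [avg_const]
  · simp only [if_neg hi]
    exact le_refl _

theorem qH_nonneg {N : ℕ} (H : Finset (Fin N)) (q : (Fin N → Bool) → Fin N → ℝ)
    (hq : ∀ x i, 0 ≤ q x i) (x : Fin N → Bool) (i : Fin N) : 0 ≤ qH H q x i := by
  unfold qH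
  split_ifs
  · exact le_refl _
  · exact avg_nonneg (fun h => hq _ i)

theorem qH_sum {N : ℕ} (H : Finset (Fin N)) (q : (Fin N → Bool) → Fin N → ℝ) (T : ℝ)
    (hq : ∀ x i, 0 ≤ q x i) (hqT : ∀ x, ∑ i, q x i ≤ T) (x : Fin N → Bool) :
    ∑ i, qH H q x i ≤ T := by
  calc ∑ i, qH H q x i ≤ ∑ i, avg (fun h => q (ov H h x) i) := by
        apply Finset.sum_le_sum
        intro i _
        unfold qH avH
        split_ifs
        · exact avg_nonneg (fun h => hq _ i)
        · exact le_refl _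
    _ = avg (fun h => ∑ i, q (ov H h x) i) := (avg_sum _ _).symm
    _ ≤ avg (fun _ : Fin N → Bool => T) := avg_mono (fun h => hqT _)
    _ = T := avg_const T

theorem avg_qH {N : ℕ} (H : Finset (Fin N)) (q : (Fin N → Bool) → Fin N → ℝ) (τ : ℝ)
    (hτ : 0 ≤ τ) (h : ∀ i, i ∉ H → avg (fun x => q x i) ≤ τ) (i : Fin N) :
    avg (fun x => qH H q x i) ≤ τ := by
  unfold qH
  by_cases hi : i ∈ H
  · simp only [if_pos hi]
    rw [avg_const]
    exact hτ
  · simp only [if_neg hi]
    rw [avg_avH]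
    exact h i hi

end Pool.Agent.H.MP_58d537_lc.AAP
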