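import Mathlib

/-!
# Fractional covers by linear programming duality
-/

set_option autoImplicit false

namespace Pool.Agent.H.MP_58d537_lc.AAP

open Finset

/-- **Duality.** If `∑_B π B Δ B ≤ W Λ` whenever `π ≥ 0`, `Λ > 0`, `∑_{B ∋ i} π B ≤ Λ` for all `i`,
then there are `w ≥ 0`, `∑ w ≤ W` with `Δ B ≤ ∑_{i ∈ B} w i` for all `B`.
Proof. `K = {fun B => ∑_{i ∈ B} w i | w ≥ 0, ∑ w ≤ W}` is compact convex, `Q = {u | Δ ≤ u}` closed
convex in `Finset V → ℝ`. If they are disjoint, `geometric_hahn_banach_compact_closed` gives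
a linear `f` and `u < v` with `f < u` on `K`, `v < f` on `Q`. `π B = f (Pi.single B 1)`,
`f z = ∑ z B π B`; `π ≥ 0` since `Δ + t e_B ∈ Q` for all `t ≥ 0`; `0 ∈ K` so `0 < u`; `w = W e_i` gives
`W ∑_{B ∋ i} π B < u`. With `Λ = u / W`: `v < ∑ π Δ ≤ W Λ = u`, contradiction. -/
theorem lp_cover {V : Type*} [Fintype V] [DecidableEq V] (Δ : Finset V → ℝ) (W : ℝ) (hW : 0 < W)
    (h : ∀ (π : Finset V → ℝ), (∀ B, 0 ≤ π B) → ∀ Λ : ℝ, 0 < Λ →
      (∀ i : V, ∑ B ∈ univ.filter (fun B : Finset V => i ∈ B), π B ≤ Λ) →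
      ∑ B : Finset V, π B * Δ B ≤ W * Λ) :
    ∃ w : V → ℝ, (∀ i, 0 ≤ w i) ∧ ∑ i, w i ≤ W ∧ ∀ B : Finset V, Δ B ≤ ∑ i ∈ B, w i := by
  classical
  let A : (V → ℝ) → (Finset V → ℝ) := fun w B => ∑ i ∈ B, w i
  let K₀ : Set (V → ℝ) := {w | (∀ i, 0 ≤ w i) ∧ ∑ i, w i ≤ W}
  have hK₀c : IsCompact K₀ := by
    have h1 : IsCompact (Set.univ.pi fun _ : V => Set.Icc (0 : ℝ) W) :=
      isCompact_univ_pi fun _ => isCompact_Icc
    refine h1.of_isClosed_subset ?_ ?_
    · have h2 : IsClosed {w : V → ℝ | ∀ i, 0 ≤ w i} := by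
        rw [Set.setOf_forall]
        exact isClosed_iInter fun i => isClosed_le continuous_const (continuous_apply i)
      have h3 : IsClosed {w : V → ℝ | ∑ i, w i ≤ W} :=
        isClosed_le (continuous_finsetSum _ fun i _ => continuous_apply i) continuous_const
      exact h2.inter h3
    · rintro w ⟨hw0, hw⟩ i _
      refine ⟨hw0 i, le_trans ?_ hw⟩
      exact single_le_sum (fun j _ => hw0 j) (mem_univ i)
  have hK₀v : Convex ℝ K₀ := by
    rintro w ⟨hw0, hw⟩ w' ⟨hw0', hw'⟩ a b ha hb hab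
    refine ⟨fun i => ?_, ?_⟩
    · have h1 := mul_nonneg ha (hw0 i)
      have h2 := mul_nonneg hb (hw0' i)
      show 0 ≤ a * w i + b * w' i
      linarith
    · have h1 : ∑ i, (a • w + b • w') i = a * ∑ i, w i + b * ∑ i, w' i := by
        rw [mul_sum, mul_sum, ← sum_add_distrib]
        rfl
      rw [h1]
      have h2 := mul_le_mul_of_nonneg_left hw ha
      have h3 := mul_le_mul_of_nonneg_left hw' hb
      have h4 : a * W + b * W = W := by rw [← add_mul, hab, one_mul]
      linarith
  have hAc : Continuous A := by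
    refine continuous_pi fun B => ?_
    exact continuous_finsetSum _ fun i _ => continuous_apply i
  have hKc : IsCompact (A '' K₀) := hK₀c.image hAc
  have hKv : Convex ℝ (A '' K₀) := by
    rintro _ ⟨w, hw, rfl⟩ _ ⟨w', hw', rfl⟩ a b ha hb hab
    refine ⟨a • w + b • w', hK₀v hw hw' ha hb hab, ?_⟩
    funext B
    show ∑ i ∈ B, (a * w i + b * w' i) = a * ∑ i ∈ B, w i + b * ∑ i ∈ B, w' i
    rw [sum_add_distrib, mul_sum, mul_sum]
  by_cases hdis : Disjoint (A '' K₀) (Set.Ici Δ)
  · exfalso
    obtain ⟨f, u, v, hf1, huv, hf2⟩ :=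
      geometric_hahn_banach_compact_closed hKv hKc (convex_Ici Δ) isClosed_Ici hdis
    have hfz : ∀ z : Finset V → ℝ, f z = ∑ B, z B * f (Pi.single B 1) := by
      intro z
      have h1 : z = ∑ B, z B • (Pi.single B (1 : ℝ) : Finset V → ℝ) := by
        funext C
        rw [Finset.sum_apply, sum_eq_single C]
        · rw [Pi.smul_apply, Pi.single_eq_same, smul_eq_mul, mul_one]
        · intro B _ hB
          rw [Pi.smul_apply, Pi.single_eq_of_ne (Ne.symm hB), smul_zero]
        · intro hC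
          exact absurd (mem_univ C) hC
      conv_lhs => rw [h1]
      rw [map_sum]
      refine sum_congr rfl fun B _ => ?_
      rw [map_smul, smul_eq_mul]
    have hfΔ : v < f Δ := hf2 Δ (Set.mem_Ici.2 le_rfl)
    have hπ : ∀ B, 0 ≤ f (Pi.single B 1) := by
      intro B
      by_contra hneg
      push Not at hneg
      have hpos : 0 < -f (Pi.single B 1) := by linarith
      let t : ℝ := (f Δ - v) / -f (Pi.single B 1)
      have ht : 0 ≤ t := div_nonneg (by linarith) hpos.le
      have h1 : v < f (Δ + t • (Pi.single B (1 : ℝ) : Finset V → ℝ)) := by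
        apply hf2
        rw [Set.mem_Ici]
        intro C
        have h3 : 0 ≤ (Pi.single B (1 : ℝ) : Finset V → ℝ) C := by
          by_cases hC : C = B
          · rw [hC, Pi.single_eq_same]
            exact zero_le_one
          · rw [Pi.single_eq_of_ne hC]
        have h2 : 0 ≤ t * (Pi.single B (1 : ℝ) : Finset V → ℝ) C := mul_nonneg ht h3
        show Δ C ≤ Δ C + t * (Pi.single B (1 : ℝ) : Finset V → ℝ) C
        linarith
      rw [map_add, map_smul, smul_eq_mul] at h1
      have h2 : t * f (Pi.single B 1) = -(f Δ - v) := by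
        have h3 : t * -f (Pi.single B 1) = f Δ - v := div_mul_cancel₀ _ hpos.ne'
        linarith
      rw [h2] at h1
      linarith
    have hu : 0 < u := by
      have h1 := hf1 0 ⟨0, ⟨fun i => le_rfl, by simpa using hW.le⟩, by
        funext B
        show ∑ i ∈ B, (0 : ℝ) = 0
        exact sum_const_zero⟩
      rwa [map_zero] at h1
    have hcon : ∀ i : V, ∑ B ∈ univ.filter (fun B : Finset V => i ∈ B), f (Pi.single B 1)
        ≤ u / W := by
      intro i
      rw [le_div_iff₀ hW]
      have h0 : (fun j => if j = i then W else 0 : V → ℝ) ∈ K₀ := by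
        refine ⟨fun j => ?_, ?_⟩
        · show (0 : ℝ) ≤ if j = i then W else 0
          split_ifs
          · exact hW.le
          · exact le_rfl
        · rw [sum_ite_eq' univ i (fun _ => W), if_pos (mem_univ i)]
      have h1 := hf1 _ ⟨_, h0, rfl⟩
      rw [hfz] at h1
      have h2 : ∑ B, A (fun j => if j = i then W else 0) B * f (Pi.single B 1)
          = (∑ B ∈ univ.filter (fun B : Finset V => i ∈ B), f (Pi.single B 1)) * W := by
        rw [sum_filter, sum_mul]
        refine sum_congr rfl fun B _ => ?_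
        have h3 : A (fun j => if j = i then W else 0) B = if i ∈ B then W else 0 := by
          show ∑ j ∈ B, (if j = i then W else 0) = _
          rw [sum_ite_eq' B i (fun _ => W)]
        rw [h3]
        split_ifs
        · ring
        · ring
      rw [h2] at h1
      exact h1.le
    have h1 := h (fun B => f (Pi.single B 1)) hπ (u / W) (div_pos hu hW) hcon
    have h2 : W * (u / W) = u := mul_div_cancel₀ _ hW.ne'
    have h3 : ∑ B, f (Pi.single B 1) * Δ B = f Δ := by
      rw [hfz Δ]
      exact sum_congr rfl fun B _ => mul_comm _ _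
    rw [h2, h3] at h1
    linarith
  · rw [Set.not_disjoint_iff] at hdis
    obtain ⟨_, ⟨w, ⟨hw0, hw⟩, rfl⟩, hΔ⟩ := hdis
    exact ⟨w, hw0, hw, fun B => hΔ B⟩

end Pool.Agent.H.MP_58d537_lc.AAP
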