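import Mathlib

/-!
# From natural to real multiplicities
-/

set_option autoImplicit false

namespace Pool.Agent.H.MP_58d537_lc.AAP

open Finset

/-- Real multiplicities from natural ones: take `c B = ⌊t π B⌋₊`, `M = ⌈t Λ⌉₊` for `t = 1, 2, …`:
`t ∑ π Δ - ∑ Δ ≤ ∑ ⌊t π⌋ Δ ≤ W (t Λ + 1)` for all `t ≥ 1`, divide by `t`. -/
theorem real_of_nat {V : Type*} [Fintype V] [DecidableEq V] (Δ : Finset V → ℝ)
    (hΔ : ∀ B, 0 ≤ Δ B) (W : ℝ) (hW : 0 ≤ W)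
    (h : ∀ (c : Finset V → ℕ) (M : ℕ), 1 ≤ M →
      (∀ i : V, ∑ B ∈ univ.filter (fun B : Finset V => i ∈ B), c B ≤ M) →
      ∑ B : Finset V, (c B : ℝ) * Δ B ≤ W * M)
    (π : Finset V → ℝ) (hπ : ∀ B, 0 ≤ π B) (Λ : ℝ) (hΛ : 0 < Λ)
    (hmult : ∀ i : V, ∑ B ∈ univ.filter (fun B : Finset V => i ∈ B), π B ≤ Λ) :
    ∑ B : Finset V, π B * Δ B ≤ W * Λ := by
  have key : ∀ t : ℕ, 1 ≤ t →
      (t : ℝ) * (∑ B : Finset V, π B * Δ B - W * Λ) ≤ W + ∑ B : Finset V, Δ B := by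
    intro t ht
    have ht0 : (0 : ℝ) < t := by exact_mod_cast ht
    have hpos : 0 < (t : ℝ) * Λ := mul_pos ht0 hΛ
    have h1 := h (fun B => ⌊(t : ℝ) * π B⌋₊) ⌈(t : ℝ) * Λ⌉₊ (Nat.ceil_pos.2 hpos) ?_
    · have h2 : (t : ℝ) * ∑ B : Finset V, π B * Δ B - ∑ B : Finset V, Δ B ≤
          ∑ B : Finset V, ((⌊(t : ℝ) * π B⌋₊ : ℕ) : ℝ) * Δ B := by
        rw [Finset.mul_sum, ← Finset.sum_sub_distrib]
        refine Finset.sum_le_sum fun B _ => ?_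
        have h3 := (Nat.lt_floor_add_one ((t : ℝ) * π B)).le
        nlinarith [mul_le_mul_of_nonneg_right h3 (hΔ B)]
      have h4 : ((⌈(t : ℝ) * Λ⌉₊ : ℕ) : ℝ) ≤ (t : ℝ) * Λ + 1 := (Nat.ceil_lt_add_one hpos.le).le
      have h5 := mul_le_mul_of_nonneg_left h4 hW
      nlinarith
    · intro i
      have h6 : ((∑ B ∈ univ.filter (fun B : Finset V => i ∈ B), ⌊(t : ℝ) * π B⌋₊ : ℕ) : ℝ) ≤
          ((⌈(t : ℝ) * Λ⌉₊ : ℕ) : ℝ) := by
        push_cast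
        calc ∑ B ∈ univ.filter (fun B : Finset V => i ∈ B), ((⌊(t : ℝ) * π B⌋₊ : ℕ) : ℝ)
            ≤ ∑ B ∈ univ.filter (fun B : Finset V => i ∈ B), (t : ℝ) * π B :=
              Finset.sum_le_sum fun B _ => Nat.floor_le (mul_nonneg ht0.le (hπ B))
          _ = (t : ℝ) * ∑ B ∈ univ.filter (fun B : Finset V => i ∈ B), π B := by
              rw [Finset.mul_sum]
          _ ≤ (t : ℝ) * Λ := mul_le_mul_of_nonneg_left (hmult i) ht0.le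
          _ ≤ ((⌈(t : ℝ) * Λ⌉₊ : ℕ) : ℝ) := Nat.le_ceil _
      exact_mod_cast h6
  by_contra hcon
  have hcon' : 0 < ∑ B : Finset V, π B * Δ B - W * Λ := sub_pos.2 (not_le.1 hcon)
  obtain ⟨t, ht⟩ := exists_nat_gt ((W + ∑ B : Finset V, Δ B) /
    (∑ B : Finset V, π B * Δ B - W * Λ))
  have hnn : 0 ≤ (W + ∑ B : Finset V, Δ B) / (∑ B : Finset V, π B * Δ B - W * Λ) :=
    div_nonneg (add_nonneg hW (Finset.sum_nonneg fun B _ => hΔ B)) hcon'.le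
  have ht1 : 1 ≤ t := by
    have : (0 : ℝ) < t := lt_of_le_of_lt hnn ht
    exact_mod_cast this
  have h7 := key t ht1
  have h8 := (div_lt_iff₀ hcon').1 ht
  linarith

end Pool.Agent.H.MP_58d537_lc.AAP
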