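import Pool.Agent.H.MP_58d537_lc.AAP.CompB
import Pool.Agent.H.MP_58d537_lc.AAP.LP
import Pool.Agent.H.MP_58d537_lc.AAP.LPA

set_option autoImplicit false

namespace Pool.Agent.H.MP_58d537_lc.AAP

open Finset

/-- **Fractional certificates** at one point. -/
theorem cert_point {V : Type*} [Fintype V] [DecidableEq V] (d : ℕ) (hd : 1 ≤ d)
    (φ : Finset V → ℝ) (hφ : DegLe d φ) (hb : ∀ B, |φ B| ≤ 1) :
    ∃ w : V → ℝ, (∀ i, 0 ≤ w i) ∧ ∑ i, w i ≤ 64 * (d : ℝ) ^ 2 ∧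
      ∀ B : Finset V, |φ B - φ ∅| ≤ ∑ i ∈ B, w i := by
  have hd0 : (0 : ℝ) < d := by exact_mod_cast hd
  refine lp_cover (fun B => |φ B - φ ∅|) (64 * (d : ℝ) ^ 2) (by positivity) ?_
  intro π hπ Λ hΛ hmult
  exact real_of_nat (fun B => |φ B - φ ∅|) (fun B => abs_nonneg _) (64 * (d : ℝ) ^ 2)
    (by positivity) (fun c M hM hc => nat_family d φ hφ hb c M hM hc) π hπ Λ hΛ hmult

end Pool.Agent.H.MP_58d537_lc.AAP
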