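import Mathlib

/-!
# Fourier inversion on the cube
-/

set_option autoImplicit false

namespace Pool.Agent.H.MP_58d537_lc.AAP

open Finset

private theorem FourA_orth {N : ℕ} (x y : Fin N → Bool) :
    ∑ S : Finset (Fin N), (∏ i ∈ S, (-1 : ℝ) ^ (y i).toNat) * ∏ i ∈ S, (-1 : ℝ) ^ (x i).toNat
      = if y = x then (2 : ℝ) ^ N else 0 := by
  have h1 : ∑ S : Finset (Fin N), (∏ i ∈ S, (-1 : ℝ) ^ (y i).toNat) *
      ∏ i ∈ S, (-1 : ℝ) ^ (x i).toNat
      = ∏ i : Fin N, (1 + (-1 : ℝ) ^ (y i).toNat * (-1 : ℝ) ^ (x i).toNat) := by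
    rw [Finset.prod_one_add, Finset.powerset_univ]
    exact Finset.sum_congr rfl fun S _ => Finset.prod_mul_distrib.symm
  rw [h1]
  by_cases h : y = x
  · rw [if_pos h, h]
    rw [Finset.prod_congr rfl (g := fun _ => (2 : ℝ))]
    · simp
    · intro i _
      cases x i <;> norm_num
  · rw [if_neg h]
    obtain ⟨i, hi⟩ := Function.ne_iff.1 h
    refine Finset.prod_eq_zero (Finset.mem_univ i) ?_
    revert hi
    cases y i <;> cases x i <;> simp

/-- Fourier inversion: `f x = 2^{-N} ∑_S (∑_y f y χ_S(y)) χ_S(x)`, `χ_S(x) = ∏_{i∈S} (-1)^{x_i}`.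
(`∑_S χ_S(x) χ_S(y) = ∏_i (1 + (-1)^{x_i} (-1)^{y_i}) = 2^N [x = y]`, `Finset.prod_one_add` or
`Finset.prod_add`.) -/
theorem fourier_inv {N : ℕ} (f : (Fin N → Bool) → ℝ) (x : Fin N → Bool) :
    f x = ((2 : ℝ) ^ N)⁻¹ * ∑ S : Finset (Fin N),
      (∑ y : Fin N → Bool, f y * ∏ i ∈ S, (-1 : ℝ) ^ (y i).toNat) *
        ∏ i ∈ S, (-1 : ℝ) ^ (x i).toNat := by
  have h1 : ∑ S : Finset (Fin N), (∑ y : Fin N → Bool, f y * ∏ i ∈ S, (-1 : ℝ) ^ (y i).toNat) *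
        ∏ i ∈ S, (-1 : ℝ) ^ (x i).toNat
      = ∑ y : Fin N → Bool, f y * (if y = x then (2 : ℝ) ^ N else 0) := by
    simp_rw [Finset.sum_mul]
    rw [Finset.sum_comm]
    refine Finset.sum_congr rfl fun y _ => ?_
    rw [← FourA_orth x y, Finset.mul_sum]
    exact Finset.sum_congr rfl fun S _ => by ring
  rw [h1]
  simp only [mul_ite, mul_zero, Finset.sum_ite_eq', Finset.mem_univ, if_true]
  field_simp

end Pool.Agent.H.MP_58d537_lc.AAP
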