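import Pool.Agent.H.MP_58d537_lc.AAP.DegB
import Pool.Agent.H.MP_58d537_lc.AAP.FourA

/-!
# From the Fourier degree to `DegLe` at a point
-/

set_option autoImplicit false

namespace Pool.Agent.H.MP_58d537_lc.AAP

open Finset

/-- Flip the coordinates in `B`. -/
def flipS {N : ℕ} (x : Fin N → Bool) (B : Finset (Fin N)) : Fin N → Bool :=
  fun i => if i ∈ B then !(x i) else x i

/-- If all Fourier coefficients of size `> d` vanish then `B ↦ f (flipS x B)` has degree `≤ d`:
`fourier_inv` and `χ_S(flipS x B) = χ_S(x) ∏_{i∈S} (1 - 2 [i ∈ B])`, a product of `|S|` functions of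
degree `≤ 1` (`DegLe.prod`, `degLe_mem`). -/
theorem degLe_of_fourier {N d : ℕ} (f : (Fin N → Bool) → ℝ)
    (hf : ∀ S : Finset (Fin N), d < S.card →
      ∑ y : Fin N → Bool, f y * ∏ i ∈ S, (-1 : ℝ) ^ (y i).toNat = 0) (x : Fin N → Bool) :
    DegLe d (fun B => f (flipS x B)) := by
  have h1 : ∀ i : Fin N, DegLe 1 (fun B : Finset (Fin N) =>
      (-1 : ℝ) ^ ((flipS x B) i).toNat) := by
    intro i
    have e : (fun B : Finset (Fin N) => (-1 : ℝ) ^ ((flipS x B) i).toNat) =
        fun B => (-1 : ℝ) ^ (x i).toNat +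
          (-2 * (-1 : ℝ) ^ (x i).toNat) * (if i ∈ B then (1 : ℝ) else 0) := by
      funext B
      by_cases hB : i ∈ B
      · cases hx : x i <;> simp [flipS, hB, hx] <;> norm_num
      · cases hx : x i <;> simp [flipS, hB, hx]
    rw [e]
    exact ((degLe_const (ι := Fin N) _).mono (Nat.zero_le 1)).add ((degLe_mem i).smul _)
  have h2 : (fun B : Finset (Fin N) => f (flipS x B)) = fun B =>
      ((2 : ℝ) ^ N)⁻¹ * ∑ S : Finset (Fin N),
        (∑ y : Fin N → Bool, f y * ∏ i ∈ S, (-1 : ℝ) ^ (y i).toNat) *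
          ∏ i ∈ S, (-1 : ℝ) ^ ((flipS x B) i).toNat := by
    funext B
    exact fourier_inv f (flipS x B)
  rw [h2]
  refine DegLe.smul _ (DegLe.sum _ _ fun S _ => ?_)
  by_cases hS : d < S.card
  · have e : (fun B : Finset (Fin N) =>
        (∑ y : Fin N → Bool, f y * ∏ i ∈ S, (-1 : ℝ) ^ (y i).toNat) *
          ∏ i ∈ S, (-1 : ℝ) ^ ((flipS x B) i).toNat) = fun _ => 0 := by
      funext B
      rw [hf S hS, zero_mul]
    rw [e]
    exact (degLe_const (ι := Fin N) 0).mono (Nat.zero_le d)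
  · refine DegLe.smul _ ?_
    have h3 := DegLe.prod (k := 1) S
      (fun i (B : Finset (Fin N)) => (-1 : ℝ) ^ ((flipS x B) i).toNat) fun i _ => h1 i
    exact h3.mono (by omega)

end Pool.Agent.H.MP_58d537_lc.AAP
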