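import Pool.Agent.H.MP_58d537_lc.AAP.Cert
import Pool.Agent.H.MP_58d537_lc.AAP.Four

set_option autoImplicit false

namespace Pool.Agent.H.MP_58d537_lc.AAP

open Finset

/-- **Fractional certificates of a bounded polynomial of degree `d`**: apply `cert_point` to
`φ B = f (flipS x B)` for every `x`; for `y` take `B = {i | x i ≠ y i}`, then `flipS x B = y`. -/
theorem cert {N d : ℕ} (hd : 1 ≤ d) (f : (Fin N → Bool) → ℝ) (hb : ∀ x, |f x| ≤ 1)
    (hf : ∀ S : Finset (Fin N), d < S.card →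
      ∑ y : Fin N → Bool, f y * ∏ i ∈ S, (-1 : ℝ) ^ (y i).toNat = 0) :
    ∃ w : (Fin N → Bool) → Fin N → ℝ, (∀ x i, 0 ≤ w x i) ∧
      (∀ x, ∑ i, w x i ≤ 64 * (d : ℝ) ^ 2) ∧
      ∀ x y, |f x - f y| ≤ ∑ i ∈ univ.filter (fun i => x i ≠ y i), w x i := by
  have key : ∀ x : Fin N → Bool, ∃ w : Fin N → ℝ, (∀ i, 0 ≤ w i) ∧
      ∑ i, w i ≤ 64 * (d : ℝ) ^ 2 ∧
      ∀ B : Finset (Fin N), |f (flipS x B) - f (flipS x ∅)| ≤ ∑ i ∈ B, w i := fun x =>
    cert_point d hd (fun B => f (flipS x B)) (degLe_of_fourier f hf x) (fun B => hb _)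
  choose w h1 h2 h3 using key
  refine ⟨w, h1, h2, fun x y => ?_⟩
  have e1 : flipS x ∅ = x := by
    funext i
    simp [flipS]
  have e2 : flipS x (univ.filter (fun i => x i ≠ y i)) = y := by
    funext i
    by_cases h : x i = y i
    · simp [flipS, h]
    · have h' : (!(x i)) = y i := by
        cases hx : x i <;> cases hy : y i <;> simp_all
      simp [flipS, h, h']
  have h := h3 x (univ.filter (fun i => x i ≠ y i))
  rw [e1, e2, abs_sub_comm] at h
  exact h

end Pool.Agent.H.MP_58d537_lc.AAP
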