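import Mathlib

/-!
# Markov's inequality at the endpoint
-/

set_option autoImplicit false

namespace Pool.Agent.H.MP_58d537_lc.AAP

open Finset Polynomial

/-- Markov's inequality at the endpoint: `|h| ≤ 1` on `[0,1]`, degree `≤ k` implies
`h'(0) ≤ 2 k²`. Use `P = - h.comp ((1 - X)/2)` (so `|P| ≤ 1` on `[-1,1]`, `P'(1) = h'(0)/2`),
`Polynomial.Chebyshev.eval_iterate_derivative_le_of_forall_abs_le_one` with derivative order `1` at
`x = 1` and `T_k'(1) = k²` (`T_derivative_eq_U`, `U_eval_one`). -/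
theorem markov_zero (k : ℕ) (h : ℝ[X]) (hdeg : h.natDegree ≤ k)
    (hb : ∀ t : ℝ, 0 ≤ t → t ≤ 1 → |h.eval t| ≤ 1) : h.coeff 1 ≤ 2 * (k : ℝ) ^ 2 := by
  set q : ℝ[X] := C (1 / 2) - C (1 / 2) * X with hq
  have hqe : ∀ x : ℝ, q.eval x = (1 - x) / 2 := by
    intro x
    simp only [hq, eval_sub, eval_C, eval_mul, eval_X]
    ring
  have hqdeg : q.natDegree ≤ 1 := by
    rw [hq]
    refine (natDegree_sub_le _ _).trans ?_
    rw [natDegree_C]
    exact max_le (Nat.zero_le _) ((natDegree_C_mul_le (1 / 2 : ℝ) X).trans natDegree_X_le)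
  have hPdeg : (-(h.comp q)).degree ≤ (k : ℕ) := by
    rw [degree_neg]
    apply degree_le_of_natDegree_le
    calc (h.comp q).natDegree ≤ h.natDegree * q.natDegree := natDegree_comp_le
      _ ≤ k * 1 := Nat.mul_le_mul hdeg hqdeg
      _ = k := mul_one k
  have hPbnd : ∀ x ∈ Set.Icc (-1 : ℝ) 1, |(-(h.comp q)).eval x| ≤ 1 := by
    intro x hx
    rw [eval_neg, abs_neg, eval_comp, hqe]
    exact hb _ (by linarith [hx.2]) (by linarith [hx.1])
  have key := Polynomial.Chebyshev.eval_iterate_derivative_le_of_forall_abs_le_one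
    (n := k) (P := -(h.comp q)) (k := 1) (x := 1) le_rfl hPdeg hPbnd
  have hqd : derivative q = C (-(1 / 2)) := by
    rw [hq, derivative_sub, derivative_C, derivative_C_mul, derivative_X, mul_one, zero_sub, C_neg]
  have h1 : (derivative^[1] (-(h.comp q))).eval 1 = h.coeff 1 / 2 := by
    rw [Function.iterate_one, derivative_neg, derivative_comp, eval_neg, eval_mul, hqd, eval_C,
      eval_comp, hqe]
    have : ((1 : ℝ) - 1) / 2 = 0 := by norm_num
    rw [this, ← coeff_zero_eq_eval_zero, coeff_derivative]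
    push_cast
    ring
  have h2 : (derivative^[1] (Polynomial.Chebyshev.T ℝ k)).eval 1 = (k : ℝ) ^ 2 := by
    rw [Function.iterate_one, Polynomial.Chebyshev.T_derivative_eq_U, eval_mul,
      Polynomial.Chebyshev.U_eval_one]
    simp
    ring
  rw [h1, h2] at key
  linarith

end Pool.Agent.H.MP_58d537_lc.AAP
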