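import Mathlib

/-!
# Product weights on the subsets of a finite type
-/

set_option autoImplicit false

namespace Pool.Agent.H.MP_58d537_lc.AAP

open Finset

variable {ι : Type*} [Fintype ι] [DecidableEq ι]

/-- The probability of `B` when `i` is chosen with probability `P i`, independently. -/
noncomputable def wt (P : ι → ℝ) (B : Finset ι) : ℝ := (∏ i ∈ B, P i) * ∏ i ∈ Bᶜ, (1 - P i)

theorem wt_nonneg {P : ι → ℝ} (h0 : ∀ i, 0 ≤ P i) (h1 : ∀ i, P i ≤ 1) (B : Finset ι) :
    0 ≤ wt P B :=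
  mul_nonneg (prod_nonneg fun i _ => h0 i) (prod_nonneg fun i _ => sub_nonneg.2 (h1 i))

/-- `∑_{B ⊇ A} wt P B = ∏_{i ∈ A} P i` (`Finset.prod_add` or `Fintype.prod_add` with `f i = P i`
and `g i = if i ∈ A then 0 else 1 - P i`). -/
theorem sum_wt_superset (P : ι → ℝ) (A : Finset ι) :
    ∑ B : Finset ι, (if A ⊆ B then wt P B else 0) = ∏ i ∈ A, P i := by
  have h := Fintype.prod_add (fun i => P i) (fun i => if i ∈ A then (0 : ℝ) else 1 - P i)
  have h1 : ∏ i, (P i + if i ∈ A then (0 : ℝ) else 1 - P i) = ∏ i ∈ A, P i := by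
    have h2 : ∀ i, (P i + if i ∈ A then (0 : ℝ) else 1 - P i) = if i ∈ A then P i else 1 := by
      intro i
      by_cases hi : i ∈ A <;> simp [hi]
    simp only [h2]
    rw [Finset.prod_ite_mem, Finset.univ_inter]
  rw [← h1, h]
  refine Finset.sum_congr rfl fun B _ => ?_
  split_ifs with hAB
  · unfold wt
    congr 1
    refine Finset.prod_congr rfl fun i hi => ?_
    have : i ∉ A := fun hA => (Finset.mem_compl.1 hi) (hAB hA)
    simp [this]
  · obtain ⟨a, haA, haB⟩ := Finset.not_subset.1 hAB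
    rw [Finset.prod_eq_zero (i := a) (Finset.mem_compl.2 haB) (by simp [haA]), mul_zero]

/-- The expectation of `∑_{A ⊆ B} c A` is `∑_A c A ∏_{i ∈ A} P i`. -/
theorem sum_wt_mul (P : ι → ℝ) (c : Finset ι → ℝ) :
    ∑ B : Finset ι, wt P B * ∑ A ∈ B.powerset, c A = ∑ A : Finset ι, c A * ∏ i ∈ A, P i := by
  have h1 : ∀ B : Finset ι, wt P B * ∑ A ∈ B.powerset, c A
      = ∑ A : Finset ι, c A * (if A ⊆ B then wt P B else 0) := by
    intro B
    rw [Finset.mul_sum]
    have h2 : B.powerset = Finset.univ.filter (fun A => A ⊆ B) := by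
      ext A; simp
    rw [h2, Finset.sum_filter]
    refine Finset.sum_congr rfl fun A _ => ?_
    by_cases hA : A ⊆ B <;> simp [hA, mul_comm]
  rw [Finset.sum_congr rfl fun B _ => h1 B, Finset.sum_comm]
  refine Finset.sum_congr rfl fun A _ => ?_
  rw [← Finset.mul_sum, sum_wt_superset]

theorem sum_wt (P : ι → ℝ) : ∑ B : Finset ι, wt P B = 1 := by
  have h := sum_wt_superset P (∅ : Finset ι)
  simpa using h

/-- Averages of functions bounded by `1` are bounded by `1`. -/
theorem abs_sum_wt_le {P : ι → ℝ} (h0 : ∀ i, 0 ≤ P i) (h1 : ∀ i, P i ≤ 1)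
    (G : Finset ι → ℝ) (hG : ∀ B, |G B| ≤ 1) : |∑ B : Finset ι, wt P B * G B| ≤ 1 := by
  calc |∑ B : Finset ι, wt P B * G B| ≤ ∑ B : Finset ι, |wt P B * G B| :=
        Finset.abs_sum_le_sum_abs _ _
    _ ≤ ∑ B : Finset ι, wt P B := by
        refine Finset.sum_le_sum fun B _ => ?_
        rw [abs_mul, abs_of_nonneg (wt_nonneg h0 h1 B)]
        exact mul_le_of_le_one_right (wt_nonneg h0 h1 B) (hG B)
    _ = 1 := sum_wt P

end Pool.Agent.H.MP_58d537_lc.AAP
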