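import Pool.Agent.H.MP_58d537_lc.AAP.Deg
import Pool.Agent.H.MP_58d537_lc.AAP.Wt
import Pool.Agent.H.MP_58d537_lc.AAP.MarkA

/-!
# Block sensitivity at the origin from Markov's inequality
-/

set_option autoImplicit false

namespace Pool.Agent.H.MP_58d537_lc.AAP

open Finset Polynomial

variable {J : Type*} [Fintype J] [DecidableEq J]

/-- A function of degree `≤ k` bounded by `1` on the cube has `∑_j (G {j} - G ∅) ≤ 2 k²`:
`h(t) = ∑_A c A t^|A|` is the expectation of `G` for independent coordinates with probability `t`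
(`sum_wt_mul` with `P = t` constant, `abs_sum_wt_le`), so `|h| ≤ 1` on `[0,1]`; the coefficient of
`h` at `1` is `∑_j c {j}` and `c {j} = G {j} - G ∅`. Then `markov_zero`. -/
theorem sens_le (k : ℕ) (G : Finset J → ℝ) (hG : DegLe k G) (hb : ∀ s, |G s| ≤ 1) :
    ∑ j : J, (G {j} - G ∅) ≤ 2 * (k : ℝ) ^ 2 := by
  obtain ⟨c, hc, hGc⟩ := hG
  have hsing : ∀ j : J, G {j} - G ∅ = c {j} := by
    intro j
    rw [hGc {j}, hGc ∅, Finset.powerset_empty, Finset.sum_singleton]
    have h1 : ({j} : Finset J).powerset = {∅, {j}} := by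
      ext A
      simp [Finset.subset_singleton_iff]
    rw [h1, Finset.sum_pair (by simp)]
    ring
  set h : ℝ[X] := ∑ A : Finset J, C (c A) * X ^ A.card with hh
  have hdeg : h.natDegree ≤ k := by
    rw [hh]
    refine natDegree_sum_le_of_forall_le _ _ fun A _ => ?_
    by_cases hA : k < A.card
    · rw [hc A hA]
      simp
    · exact (natDegree_C_mul_X_pow_le (c A) A.card).trans (not_lt.1 hA)
  have hev : ∀ t : ℝ, h.eval t = ∑ B : Finset J, wt (fun _ => t) B * G B := by
    intro t
    rw [Finset.sum_congr rfl fun B _ => by rw [hGc B], sum_wt_mul, hh, eval_finsetSum]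
    refine Finset.sum_congr rfl fun A _ => ?_
    rw [eval_mul, eval_C, eval_pow, eval_X, Finset.prod_const]
  have hb' : ∀ t : ℝ, 0 ≤ t → t ≤ 1 → |h.eval t| ≤ 1 := by
    intro t h0 h1
    rw [hev t]
    exact abs_sum_wt_le (fun _ => h0) (fun _ => h1) G hb
  have hcoeff : h.coeff 1 = ∑ j : J, c {j} := by
    rw [hh, finsetSum_coeff]
    have h1 : ∀ A : Finset J, (C (c A) * X ^ A.card : ℝ[X]).coeff 1
        = if A.card = 1 then c A else 0 := by
      intro A
      rw [coeff_C_mul, coeff_X_pow]
      by_cases hA : A.card = 1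
      · rw [if_pos hA.symm, if_pos hA, mul_one]
      · rw [if_neg (fun h => hA h.symm), if_neg hA, mul_zero]
    rw [Finset.sum_congr rfl fun A _ => h1 A, ← Finset.sum_filter]
    have h2 : (Finset.univ.filter fun A : Finset J => A.card = 1)
        = Finset.univ.map ⟨_, Finset.singleton_injective (α := J)⟩ := by
      rw [← Finset.powersetCard_one]
      ext A
      simp [Finset.mem_powersetCard]
    rw [h2, Finset.sum_map]
    rfl
  have hm := markov_zero k h hdeg hb'
  rw [hcoeff] at hm
  rw [Finset.sum_congr rfl fun j _ => hsing j]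
  exact hm

end Pool.Agent.H.MP_58d537_lc.AAP
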