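import Mathlib

/-!
# A polynomial of degree `2D` with `q 0 = 0`, `q 1 = 1`, `0 ≤ q ≤ 1` on `[0, D²]`
-/

set_option autoImplicit false

namespace Pool.Agent.H.MP_58d537_lc.AAP

open Polynomial

/-- `q = 1 - (T_D (1 - c X))²`, `c = 1 - cos (π/(2D))`: `q 0 = 1 - T_D(1)² = 0`,
`q 1 = 1 - T_D(cos (π/(2D)))² = 1 - cos(π/2)² = 1`; for `0 ≤ t ≤ D²`: `0 ≤ c t ≤ 2` since
`c ≤ (π/(2D))²/2 ≤ 2/D²` (`Real.one_sub_sq_div_two_le_cos`, `π < 4`), so `|T_D (1 - c t)| ≤ 1`. -/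
theorem exists_or (D : ℕ) (hD : 1 ≤ D) :
    ∃ q : ℝ[X], q.natDegree ≤ 2 * D ∧ q.eval 0 = 0 ∧ q.eval 1 = 1 ∧
      ∀ t : ℝ, 0 ≤ t → t ≤ (D : ℝ) ^ 2 → 0 ≤ q.eval t ∧ q.eval t ≤ 1 := by
  have hD0 : (0 : ℝ) < D := by exact_mod_cast hD
  obtain ⟨c, hc⟩ : ∃ c : ℝ, c = 1 - Real.cos (Real.pi / (2 * D)) := ⟨_, rfl⟩
  have hc0 : 0 ≤ c := by
    rw [hc]; linarith [Real.cos_le_one (Real.pi / (2 * D))]
  have hcD : c * (D : ℝ) ^ 2 ≤ 2 := by
    have h1 := Real.one_sub_sq_div_two_le_cos (x := Real.pi / (2 * D))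
    have h2 : c ≤ (Real.pi / (2 * D)) ^ 2 / 2 := by rw [hc]; linarith
    have h3 : (Real.pi / (2 * D)) ^ 2 / 2 * (D : ℝ) ^ 2 = Real.pi ^ 2 / 8 := by
      field_simp
      ring
    have h4 : Real.pi ^ 2 ≤ 16 := by nlinarith [Real.pi_pos, Real.pi_le_four]
    calc c * (D : ℝ) ^ 2 ≤ (Real.pi / (2 * D)) ^ 2 / 2 * (D : ℝ) ^ 2 :=
          mul_le_mul_of_nonneg_right h2 (by positivity)
      _ = Real.pi ^ 2 / 8 := h3
      _ ≤ 2 := by linarith
  have hev : ∀ t : ℝ, (1 - ((Chebyshev.T ℝ (D : ℤ)).comp (1 - C c * X)) ^ 2).eval t =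
      1 - ((Chebyshev.T ℝ (D : ℤ)).eval (1 - c * t)) ^ 2 := by
    intro t
    simp [eval_comp]
  refine ⟨1 - ((Chebyshev.T ℝ (D : ℤ)).comp (1 - C c * X)) ^ 2, ?_, ?_, ?_, ?_⟩
  · have hT : (Chebyshev.T ℝ (D : ℤ)).natDegree ≤ D := by
      rw [natDegree_le_iff_degree_le, Chebyshev.degree_T]
      simp
    have hl : (1 - C c * X : ℝ[X]).natDegree ≤ 1 := by
      refine (natDegree_sub_le _ _).trans ?_
      rw [natDegree_one]
      exact max_le (by norm_num) ((natDegree_C_mul_le c X).trans natDegree_X_le)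
    refine (natDegree_sub_le _ _).trans ?_
    rw [natDegree_one]
    refine max_le (by positivity) ?_
    refine (natDegree_pow_le).trans ?_
    refine Nat.mul_le_mul_left 2 ?_
    rw [natDegree_comp]
    calc (Chebyshev.T ℝ (D : ℤ)).natDegree * (1 - C c * X : ℝ[X]).natDegree
        ≤ D * 1 := Nat.mul_le_mul hT hl
      _ = D := Nat.mul_one D
  · rw [hev]; simp
  · rw [hev]
    have h1 : 1 - c * 1 = Real.cos (Real.pi / (2 * D)) := by rw [hc]; ring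
    rw [h1, Chebyshev.T_real_cos]
    have h2 : ((D : ℤ) : ℝ) * (Real.pi / (2 * D)) = Real.pi / 2 := by
      push_cast
      field_simp
    rw [h2, Real.cos_pi_div_two]
    norm_num
  · intro t ht0 ht
    rw [hev]
    have hct : c * t ≤ 2 := (mul_le_mul_of_nonneg_left ht hc0).trans hcD
    have hct0 : 0 ≤ c * t := mul_nonneg hc0 ht0
    have habs : |1 - c * t| ≤ 1 := abs_le.mpr ⟨by linarith, by linarith⟩
    have hTt := Chebyshev.abs_eval_T_real_le_one (D : ℤ) habs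
    have hsq : ((Chebyshev.T ℝ (D : ℤ)).eval (1 - c * t)) ^ 2 ≤ 1 := by
      rw [sq_le_one_iff_abs_le_one]
      exact hTt
    constructor
    · linarith
    · linarith [sq_nonneg ((Chebyshev.T ℝ (D : ℤ)).eval (1 - c * t))]

end Pool.Agent.H.MP_58d537_lc.AAP
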