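import Pool.Agent.H.MP_58d537_lc.AAP.DegB
import Pool.Agent.H.MP_58d537_lc.AAP.Mark
import Pool.Agent.H.MP_58d537_lc.AAP.OrPoly

/-!
# Fractional block sensitivity: families of blocks with bounded multiplicity
-/

set_option autoImplicit false

namespace Pool.Agent.H.MP_58d537_lc.AAP

open Finset Polynomial

/-- Evaluation of the multilinear form at an indicator. -/
theorem block_family_indicator {V : Type*} [Fintype V] [DecidableEq V] (φ : Finset V → ℝ)
    (c : Finset V → ℝ) (hc : ∀ s, φ s = ∑ A ∈ s.powerset, c A) (E : Finset V) (P : V → ℝ)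
    (hP : ∀ i, P i = if i ∈ E then (1 : ℝ) else 0) :
    ∑ A : Finset V, c A * ∏ i ∈ A, P i = φ E := by
  rw [hc E]
  have h1 : ∀ A : Finset V, c A * ∏ i ∈ A, P i = if A ∈ E.powerset then c A else 0 := by
    intro A
    by_cases hA : A ⊆ E
    · rw [if_pos (mem_powerset.2 hA)]
      have : ∏ i ∈ A, P i = 1 := by
        apply Finset.prod_eq_one
        intro i hi
        rw [hP, if_pos (hA hi)]
      rw [this, mul_one]
    · rw [if_neg (fun h => hA (mem_powerset.1 h))]
      obtain ⟨i, hiA, hiE⟩ := Finset.not_subset.1 hA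
      have : ∏ i ∈ A, P i = 0 := by
        apply Finset.prod_eq_zero hiA
        rw [hP, if_neg hiE]
      rw [this, mul_zero]
  rw [Finset.sum_congr rfl (fun A _ => h1 A), ← Finset.sum_filter]
  congr 1
  ext A
  simp

/-- `φ` of degree `≤ d` on the subsets of `V`, `|φ| ≤ 1`; blocks `B j`, every point of `V` in at
most `D²` of them. Then `∑_j (φ (B j) - φ ∅) ≤ 8 D² d²`.
Proof. `q` from `exists_or D`, `N i s = #{j ∈ s | i ∈ B j}` (degree `≤ 1` in `s`, value in
`[0, D²]`), `P i s = q (N i s) ∈ [0,1]`, `φ B = ∑_{A ⊆ B} c A`,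
`G s = ∑_B wt (P · s) B * φ B = ∑_A c A ∏_{i ∈ A} P i s` (`sum_wt_mul`): `|G| ≤ 1`
(`abs_sum_wt_le`), degree `≤ d * (2D)` (`c A = 0` for `|A| > d`). `G ∅ = φ ∅` (`P i ∅ = q 0 = 0`)
and `G {j} = φ (B j)` (`P i {j} = q 1` or `q 0`; `∑_A c A ∏_{i ∈ A} 1[i ∈ B] = φ B`).
Apply `sens_le (d * (2 * D)) G`. -/
theorem block_family {V : Type*} [Fintype V] [DecidableEq V] {J : Type*} [Fintype J]
    [DecidableEq J] (d D : ℕ) (hD : 1 ≤ D) (φ : Finset V → ℝ) (hφ : DegLe d φ)
    (hb : ∀ B, |φ B| ≤ 1) (B : J → Finset V)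
    (hmult : ∀ i : V, (univ.filter (fun j => i ∈ B j)).card ≤ D ^ 2) :
    ∑ j, (φ (B j) - φ ∅) ≤ 8 * (D : ℝ) ^ 2 * (d : ℝ) ^ 2 := by
  obtain ⟨q, hqd, hq0, hq1, hqb⟩ := exists_or D hD
  obtain ⟨c, hc, hφc⟩ := hφ
  set N : V → Finset J → ℝ := fun i s =>
    ∑ j : J, (if i ∈ B j then (1 : ℝ) else 0) * (if j ∈ s then (1 : ℝ) else 0) with hN
  have hNdeg : ∀ i, DegLe 1 (N i) := by
    intro i
    exact DegLe.sum univ _ (fun j _ => DegLe.smul _ (degLe_mem j))
  have hN0 : ∀ i s, 0 ≤ N i s := by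
    intro i s
    apply Finset.sum_nonneg
    intro j _
    positivity
  have hN1 : ∀ i s, N i s ≤ (D : ℝ) ^ 2 := by
    intro i s
    have h1 : N i s ≤ ∑ j : J, (if i ∈ B j then (1 : ℝ) else 0) := by
      apply Finset.sum_le_sum
      intro j _
      by_cases h : i ∈ B j <;> by_cases h' : j ∈ s <;> simp [h, h']
    have h2 : ∑ j : J, (if i ∈ B j then (1 : ℝ) else 0)
        = ((univ.filter (fun j => i ∈ B j)).card : ℝ) := by
      rw [Finset.sum_boole]
    rw [h2] at h1
    calc N i s ≤ ((univ.filter (fun j => i ∈ B j)).card : ℝ) := h1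
      _ ≤ ((D ^ 2 : ℕ) : ℝ) := by exact_mod_cast hmult i
      _ = (D : ℝ) ^ 2 := by push_cast; ring
  set P : V → Finset J → ℝ := fun i s => q.eval (N i s) with hPdef
  have hPdeg : ∀ i, DegLe (2 * D) (P i) := fun i => DegLe.eval hqd (hNdeg i)
  have hP0 : ∀ i s, 0 ≤ P i s := fun i s => (hqb _ (hN0 i s) (hN1 i s)).1
  have hP1 : ∀ i s, P i s ≤ 1 := fun i s => (hqb _ (hN0 i s) (hN1 i s)).2
  set G : Finset J → ℝ := fun s => ∑ A : Finset V, c A * ∏ i ∈ A, P i s with hGdef
  have hGdeg : DegLe (d * (2 * D)) G := by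
    apply DegLe.sum
    intro A _
    by_cases hA : A.card ≤ d
    · exact DegLe.smul _ (DegLe.mono (Nat.mul_le_mul_right _ hA)
        (DegLe.prod A (fun i s => P i s) (fun i _ => hPdeg i)))
    · have hz : c A = 0 := hc A (not_le.1 hA)
      have : (fun s : Finset J => c A * ∏ i ∈ A, P i s) = fun _ => (0 : ℝ) := by
        funext s
        rw [hz, zero_mul]
      rw [this]
      exact DegLe.mono (Nat.zero_le _) (degLe_const 0)
  have hGb : ∀ s, |G s| ≤ 1 := by
    intro s
    have h1 : G s = ∑ E : Finset V, wt (fun i => P i s) E * φ E := by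
      have h2 := sum_wt_mul (fun i => P i s) c
      simp only [hGdef]
      rw [← h2]
      apply Finset.sum_congr rfl
      intro E _
      rw [hφc E]
    rw [h1]
    exact abs_sum_wt_le (fun i => hP0 i s) (fun i => hP1 i s) φ hb
  have hG0 : G ∅ = φ ∅ := by
    simp only [hGdef]
    apply block_family_indicator φ c hφc ∅ (fun i => P i ∅)
    intro i
    have : N i ∅ = 0 := by
      simp only [hN]
      simp
    simp only [hPdef]
    rw [this, hq0]
    simp
  have hGj : ∀ j, G {j} = φ (B j) := by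
    intro j
    simp only [hGdef]
    apply block_family_indicator φ c hφc (B j) (fun i => P i {j})
    intro i
    have hNj : N i {j} = if i ∈ B j then (1 : ℝ) else 0 := by
      simp only [hN, Finset.mem_singleton]
      rw [Finset.sum_eq_single j]
      · simp
      · intro j' _ hj'
        simp [hj']
      · intro h
        exact absurd (mem_univ j) h
    simp only [hPdef]
    rw [hNj]
    by_cases h : i ∈ B j
    · simp [h, hq1]
    · simp [h, hq0]
  have hfin := sens_le (d * (2 * D)) G hGdeg hGb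
  have heq : ∑ j : J, (G {j} - G ∅) = ∑ j, (φ (B j) - φ ∅) := by
    apply Finset.sum_congr rfl
    intro j _
    rw [hGj j, hG0]
  rw [heq] at hfin
  calc ∑ j, (φ (B j) - φ ∅) ≤ 2 * ((d * (2 * D) : ℕ) : ℝ) ^ 2 := hfin
    _ = 8 * (D : ℝ) ^ 2 * (d : ℝ) ^ 2 := by push_cast; ring

end Pool.Agent.H.MP_58d537_lc.AAP
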