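import Pool.Agent.H.MP_58d537_lc.AAP.Comp

set_option autoImplicit false

namespace Pool.Agent.H.MP_58d537_lc.AAP

open Finset

theorem compB_mult {V : Type*} [Fintype V] [DecidableEq V] (c : Finset V → ℕ) (M : ℕ)
    (hmult : ∀ i : V, ∑ B ∈ univ.filter (fun B : Finset V => i ∈ B), c B ≤ M)
    (f : Finset V → Finset V) (hf : ∀ B, f B ⊆ B) (i : V) :
    (univ.filter (fun j : (Σ B : Finset V, Fin (c B)) => i ∈ f j.1)).card ≤ M := by
  refine le_trans (card_le_card (t := univ.filter (fun j : (Σ B : Finset V, Fin (c B)) => i ∈ j.1))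
    ?_) ?_
  · intro j hj
    rw [mem_filter] at hj ⊢
    exact ⟨hj.1, hf _ hj.2⟩
  · refine le_trans (le_of_eq ?_) (hmult i)
    rw [card_filter, Fintype.sum_sigma, sum_filter]
    refine sum_congr rfl fun B _ => ?_
    by_cases h : i ∈ B
    · simp [h]
    · simp [h]

theorem compB_half {V : Type*} [Fintype V] [DecidableEq V] (d D : ℕ) (hD : 1 ≤ D)
    (ψ : Finset V → ℝ) (hψ : DegLe d ψ) (hb : ∀ B, |ψ B| ≤ 1) (c : Finset V → ℕ) (M : ℕ)
    (hMD : M ≤ D ^ 2)
    (hmult : ∀ i : V, ∑ B ∈ univ.filter (fun B : Finset V => i ∈ B), c B ≤ M) :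
    ∑ B : Finset V, (c B : ℝ) * max (ψ B - ψ ∅) 0 ≤ 8 * (D : ℝ) ^ 2 * (d : ℝ) ^ 2 := by
  classical
  let f : Finset V → Finset V := fun B => if ψ ∅ ≤ ψ B then B else ∅
  have hf : ∀ B, f B ⊆ B := by
    intro B
    by_cases h : ψ ∅ ≤ ψ B
    · have h1 : f B = B := if_pos h
      rw [h1]
    · have h1 : f B = ∅ := if_neg h
      rw [h1]
      exact empty_subset _
  have hψf : ∀ B, ψ (f B) - ψ ∅ = max (ψ B - ψ ∅) 0 := by
    intro B
    by_cases h : ψ ∅ ≤ ψ B
    · have h1 : f B = B := if_pos h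
      rw [h1, max_eq_left (by linarith)]
    · have h1 : f B = ∅ := if_neg h
      rw [h1, sub_self, max_eq_right]
      push Not at h
      linarith
  have h := block_family (J := (Σ B : Finset V, Fin (c B))) d D hD ψ hψ hb (fun j => f j.1)
    (fun i => (compB_mult c M hmult f hf i).trans hMD)
  have e : ∑ j : (Σ B : Finset V, Fin (c B)), (ψ (f j.1) - ψ ∅)
      = ∑ B : Finset V, (c B : ℝ) * max (ψ B - ψ ∅) 0 := by
    rw [Fintype.sum_sigma]
    refine sum_congr rfl fun B _ => ?_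
    have e1 : ∀ y : Fin (c B), ψ (f (⟨B, y⟩ : (Σ B : Finset V, Fin (c B))).1) - ψ ∅
        = max (ψ B - ψ ∅) 0 := fun _ => hψf B
    rw [sum_congr rfl fun y _ => e1 y, sum_const, card_univ, Fintype.card_fin, nsmul_eq_mul]
  rw [← e]
  exact h

/-- Natural number multiplicities: `∑_{B ∋ i} c B ≤ M` for all `i`, `1 ≤ M`. Then
`∑_B c B |φ B - φ ∅| ≤ 64 d² M`.
Proof. `D = Nat.sqrt M + 1`, `M ≤ D²`, `D² ≤ 4 M`. Apply `block_family` with
`J = {x : Σ B : Finset V, Fin (c B) // φ ∅ ≤ φ x.1}` and `φ`, and with the complementary subtype and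
`-φ` (same degree, same bound). (Or: with `J = Σ B, Fin (c B)` and blocks `if φ ∅ ≤ φ B then B else
∅`, which avoids subtypes: the terms with `∅` vanish.) Sums over the sigma type:
`Fintype.sum_sigma`, `Finset.sum_const`. -/
theorem nat_family {V : Type*} [Fintype V] [DecidableEq V] (d : ℕ) (φ : Finset V → ℝ)
    (hφ : DegLe d φ) (hb : ∀ B, |φ B| ≤ 1) (c : Finset V → ℕ) (M : ℕ) (hM : 1 ≤ M)
    (hmult : ∀ i : V, ∑ B ∈ univ.filter (fun B : Finset V => i ∈ B), c B ≤ M) :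
    ∑ B : Finset V, (c B : ℝ) * |φ B - φ ∅| ≤ 64 * (d : ℝ) ^ 2 * M := by
  classical
  have h1 : 1 ≤ Nat.sqrt M := by
    rw [Nat.le_sqrt]
    omega
  have h2 : M ≤ (Nat.sqrt M + 1) ^ 2 := by
    have := Nat.lt_succ_sqrt' M
    exact this.le
  have h3 : (Nat.sqrt M + 1) ^ 2 ≤ 4 * M := by
    have h4 : Nat.sqrt M ^ 2 ≤ M := Nat.sqrt_le' M
    nlinarith
  have hneg : DegLe d (fun s => -1 * φ s) := hφ.smul (-1)
  have a1 := compB_half d (Nat.sqrt M + 1) (by omega) φ hφ hb c M h2 hmult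
  have a2 := compB_half d (Nat.sqrt M + 1) (by omega) (fun s => -1 * φ s) hneg
    (fun B => by rw [abs_mul, abs_neg, abs_one, one_mul]; exact hb B) c M h2 hmult
  have e : ∑ B : Finset V, (c B : ℝ) * |φ B - φ ∅|
      = ∑ B : Finset V, (c B : ℝ) * max (φ B - φ ∅) 0
        + ∑ B : Finset V, (c B : ℝ) * max (-1 * φ B - -1 * φ ∅) 0 := by
    rw [← sum_add_distrib]
    refine sum_congr rfl fun B _ => ?_
    rw [← mul_add]
    congr 1
    rcases le_total (φ ∅) (φ B) with h | h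
    · rw [abs_of_nonneg (by linarith), max_eq_left (by linarith), max_eq_right (by linarith),
        add_zero]
    · rw [abs_of_nonpos (by linarith), max_eq_right (by linarith), max_eq_left (by linarith)]
      ring
  have h5 : ((Nat.sqrt M + 1 : ℕ) : ℝ) ^ 2 ≤ 4 * (M : ℝ) := by exact_mod_cast h3
  have h6 : (0 : ℝ) ≤ (d : ℝ) ^ 2 := by positivity
  have h7 := mul_le_mul_of_nonneg_right h5 h6
  rw [e]
  linarith

end Pool.Agent.H.MP_58d537_lc.AAP
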