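import Mathlib

/-!
# Degree of functions on finite subsets (basis of the monomials `1[A ⊆ s]`)

`DegLe k G`: the function `G : Finset ι → ℝ` is `G s = ∑_{A ⊆ s} c A` with `c A = 0` for `|A| > k`.
-/

set_option autoImplicit false

namespace Pool.Agent.H.MP_58d537_lc.AAP

open Finset

variable {ι : Type*} [DecidableEq ι]

/-- `G s = ∑_{A ⊆ s} c A` with `c` supported on sets of size at most `k`. -/
def DegLe (k : ℕ) (G : Finset ι → ℝ) : Prop :=
  ∃ c : Finset ι → ℝ, (∀ A, k < A.card → c A = 0) ∧ ∀ s, G s = ∑ A ∈ s.powerset, c A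

/-- Constants have degree `0`: `c A = if A = ∅ then a else 0`. -/
theorem degLe_const (a : ℝ) : DegLe 0 (fun _ : Finset ι => a) := by
  refine ⟨fun A => if A = ∅ then a else 0, ?_, ?_⟩
  · intro A hA
    have hne : A ≠ ∅ := by
      rintro rfl
      simp at hA
    simp [hne]
  · intro s
    rw [Finset.sum_ite_eq' s.powerset ∅ (fun _ => a)]
    simp

/-- Monotone in the degree. -/
theorem DegLe.mono {k l : ℕ} (h : k ≤ l) {G : Finset ι → ℝ} (hG : DegLe k G) : DegLe l G := by
  obtain ⟨c, hc, hG⟩ := hG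
  exact ⟨c, fun A hA => hc A (lt_of_le_of_lt h hA), hG⟩

/-- Sums. -/
theorem DegLe.add {k : ℕ} {G H : Finset ι → ℝ} (hG : DegLe k G) (hH : DegLe k H) :
    DegLe k (fun s => G s + H s) := by
  obtain ⟨c, hc, hG⟩ := hG
  obtain ⟨c', hc', hH⟩ := hH
  refine ⟨fun A => c A + c' A, fun A hA => by simp [hc A hA, hc' A hA], fun s => ?_⟩
  simp only [hG s, hH s, Finset.sum_add_distrib]

/-- Scalar multiples. -/
theorem DegLe.smul {k : ℕ} {G : Finset ι → ℝ} (a : ℝ) (hG : DegLe k G) :
    DegLe k (fun s => a * G s) := by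
  obtain ⟨c, hc, hG⟩ := hG
  refine ⟨fun A => a * c A, fun A hA => by simp [hc A hA], fun s => ?_⟩
  simp only [hG s, Finset.mul_sum]

/-- The indicator of `i ∈ s`: `c A = if A = {i} then 1 else 0`. -/
theorem degLe_mem (i : ι) : DegLe 1 (fun s : Finset ι => if i ∈ s then (1 : ℝ) else 0) := by
  refine ⟨fun A => if A = {i} then 1 else 0, ?_, ?_⟩
  · intro A hA
    have hne : A ≠ {i} := by
      rintro rfl
      simp at hA
    simp [hne]
  · intro s
    rw [Finset.sum_ite_eq' s.powerset {i} (fun _ => (1 : ℝ))]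
    simp

/-- Finite sums. -/
theorem DegLe.sum {k : ℕ} {κ : Type*} (t : Finset κ) (G : κ → Finset ι → ℝ)
    (hG : ∀ j ∈ t, DegLe k (G j)) : DegLe k (fun s => ∑ j ∈ t, G j s) := by
  classical
  induction t using Finset.induction_on with
  | empty => simpa using (degLe_const (ι := ι) 0).mono (Nat.zero_le k)
  | insert a t ha ih =>
    have h1 := ih fun j hj => hG j (Finset.mem_insert_of_mem hj)
    have h2 := hG a (Finset.mem_insert_self a t)
    have h3 := h2.add h1
    simpa [Finset.sum_insert ha] using h3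

/-- **Products.** `(∑_{A ⊆ s} c A)(∑_{B ⊆ s} c' B) = ∑_{E ⊆ s} ∑_{A, B ⊆ E, A ∪ B = E} c A c' B`. -/
theorem DegLe.mul {k l : ℕ} {G H : Finset ι → ℝ} (hG : DegLe k G) (hH : DegLe l H) :
    DegLe (k + l) (fun s => G s * H s) := by
  obtain ⟨c, hc, hG⟩ := hG
  obtain ⟨c', hc', hH⟩ := hH
  refine ⟨fun E => ∑ AB ∈ (E.powerset ×ˢ E.powerset).filter (fun AB => AB.1 ∪ AB.2 = E),
    c AB.1 * c' AB.2, ?_, ?_⟩
  · intro E hE
    refine Finset.sum_eq_zero ?_
    rintro ⟨A, B⟩ hAB
    have hu : A ∪ B = E := (Finset.mem_filter.mp hAB).2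
    have hcard : E.card ≤ A.card + B.card := by
      rw [← hu]; exact Finset.card_union_le A B
    by_cases hA : k < A.card
    · simp [hc A hA]
    · have hB : l < B.card := by omega
      simp [hc' B hB]
  · intro s
    show G s * H s = _
    rw [hG s, hH s, Finset.sum_mul_sum, ← Finset.sum_product']
    rw [← Finset.sum_fiberwise_of_maps_to (s := s.powerset ×ˢ s.powerset) (t := s.powerset)
      (g := fun AB => AB.1 ∪ AB.2)]
    · refine Finset.sum_congr rfl fun E hE => ?_
      have hE' := Finset.mem_powerset.mp hE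
      refine Finset.sum_congr ?_ fun _ _ => rfl
      ext ⟨A, B⟩
      simp only [Finset.mem_filter, Finset.mem_product, Finset.mem_powerset]
      constructor
      · rintro ⟨_, hu⟩
        refine ⟨⟨?_, ?_⟩, hu⟩
        · rw [← hu]; exact Finset.subset_union_left
        · rw [← hu]; exact Finset.subset_union_right
      · rintro ⟨⟨hA, hB⟩, hu⟩
        exact ⟨⟨hA.trans hE', hB.trans hE'⟩, hu⟩
    · rintro ⟨A, B⟩ hAB
      simp only [Finset.mem_product, Finset.mem_powerset] at hAB ⊢
      exact Finset.union_subset hAB.1 hAB.2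

end Pool.Agent.H.MP_58d537_lc.AAP
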