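import Pool.Agent.H.MP_58d537_lc.AAP.Deg

set_option autoImplicit false

namespace Pool.Agent.H.MP_58d537_lc.AAP

open Finset Polynomial

variable {ι : Type*} [DecidableEq ι]

/-- Powers (induction with `DegLe.mul`). -/
theorem DegLe.pow {k : ℕ} {G : Finset ι → ℝ} (hG : DegLe k G) (n : ℕ) :
    DegLe (n * k) (fun s => G s ^ n) := by
  induction n with
  | zero => simpa using degLe_const (ι := ι) 1
  | succ n ih =>
    have h := ih.mul hG
    have e : n * k + k = (n + 1) * k := by ring
    rw [e] at h
    simpa [pow_succ] using h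

/-- Finite products of functions of degree `≤ k` over `t` (induction). -/
theorem DegLe.prod {k : ℕ} {κ : Type*} (t : Finset κ) (G : κ → Finset ι → ℝ)
    (hG : ∀ j ∈ t, DegLe k (G j)) : DegLe (t.card * k) (fun s => ∏ j ∈ t, G j s) := by
  classical
  induction t using Finset.induction_on with
  | empty => simpa using degLe_const (ι := ι) 1
  | insert a t ha ih =>
    have h1 := ih fun j hj => hG j (Finset.mem_insert_of_mem hj)
    have h2 := hG a (Finset.mem_insert_self a t)
    have h3 := h2.mul h1
    have e : k + t.card * k = (insert a t).card * k := by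
      rw [Finset.card_insert_of_notMem ha]; ring
    rw [e] at h3
    simpa [Finset.prod_insert ha] using h3

/-- Polynomials of functions of degree `≤ 1` (`Polynomial.eval_eq_sum_range`). -/
theorem DegLe.eval {q : ℝ[X]} {k : ℕ} (hq : q.natDegree ≤ k) {G : Finset ι → ℝ}
    (hG : DegLe 1 G) : DegLe k (fun s => q.eval (G s)) := by
  have h : (fun s => q.eval (G s)) =
      fun s => ∑ n ∈ Finset.range (q.natDegree + 1), q.coeff n * G s ^ n := by
    funext s
    exact Polynomial.eval_eq_sum_range (G s)
  rw [h]
  refine DegLe.sum _ _ fun n hn => ?_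
  have hn' : n ≤ q.natDegree := Nat.lt_succ_iff.mp (Finset.mem_range.mp hn)
  have h1 := (hG.pow n).smul (q.coeff n)
  exact h1.mono (by omega)

end Pool.Agent.H.MP_58d537_lc.AAP
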