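import Mathlib

set_option autoImplicit false

namespace Pool.Agent.H.MP_58d537_lc.AAP

open Finset

/-- **The hybrid point.** `z i = y i` where `w x i < w y i`, `z i = x i` elsewhere:
`|f x - f z| ≤ ∑_{x_i ≠ y_i, w x i < w y i} w x i`, `|f y - f z| ≤ ∑_{x_i ≠ y_i, w y i ≤ w x i} w y i`. -/
theorem min_of_cert {N : ℕ} (f : (Fin N → Bool) → ℝ) (w : (Fin N → Bool) → Fin N → ℝ)
    (hw : ∀ x i, 0 ≤ w x i)
    (hc : ∀ x y, |f x - f y| ≤ ∑ i ∈ univ.filter (fun i => x i ≠ y i), w x i)
    (x y : Fin N → Bool) :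
    |f x - f y| ≤ ∑ i ∈ univ.filter (fun i => x i ≠ y i), min (w x i) (w y i) := by
  set z : Fin N → Bool := fun i => if w x i < w y i then y i else x i with hz
  have h1 : |f x - f z| ≤ ∑ i ∈ univ.filter (fun i => x i ≠ y i),
      (if w x i < w y i then w x i else 0) := by
    refine (hc x z).trans (le_of_eq ?_)
    rw [← Finset.sum_filter, Finset.filter_filter]
    refine Finset.sum_congr ?_ (fun _ _ => rfl)
    ext i
    simp only [Finset.mem_filter, Finset.mem_univ, true_and, hz]
    by_cases h : w x i < w y i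
    · simp [h]
    · simp [h]
  have h2 : |f y - f z| ≤ ∑ i ∈ univ.filter (fun i => x i ≠ y i),
      (if w x i < w y i then 0 else w y i) := by
    refine (hc y z).trans (le_of_eq ?_)
    have e : ∀ i, (if w x i < w y i then 0 else w y i) = (if ¬ (w x i < w y i) then w y i else 0) := by
      intro i
      by_cases h : w x i < w y i <;> simp [h]
    simp only [e]
    rw [← Finset.sum_filter, Finset.filter_filter]
    refine Finset.sum_congr ?_ (fun _ _ => rfl)
    ext i
    simp only [Finset.mem_filter, Finset.mem_univ, true_and, hz]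
    by_cases h : w x i < w y i
    · simp [h]
    · simp only [h, if_false, not_false_eq_true, and_true]
      exact ⟨fun h1 h2 => h1 h2.symm, fun h1 h2 => h1 h2.symm⟩
  have h3 : |f x - f y| ≤ |f x - f z| + |f y - f z| := by
    have e : f x - f y = (f x - f z) - (f y - f z) := by ring
    rw [e]
    exact abs_sub _ _
  refine h3.trans ((add_le_add h1 h2).trans (le_of_eq ?_))
  rw [← Finset.sum_add_distrib]
  refine Finset.sum_congr rfl (fun i _ => ?_)
  by_cases h : w x i < w y i
  · rw [if_pos h, if_pos h, min_eq_left h.le, add_zero]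
  · rw [if_neg h, if_neg h, min_eq_right (not_lt.mp h), zero_add]

/-- The form used by `light_var`: for `0 ≤ p ≤ 1`. (`min a b ≤ √(ab)`, `t² / 16 ≤ t` for
`0 ≤ t ≤ 1`.) -/
theorem adv_of_cert {N : ℕ} (p : (Fin N → Bool) → ℝ) (q : (Fin N → Bool) → Fin N → ℝ)
    (hp0 : ∀ x, 0 ≤ p x) (hp1 : ∀ x, p x ≤ 1) (hq : ∀ x i, 0 ≤ q x i)
    (hc : ∀ x y, |p x - p y| ≤ ∑ i ∈ univ.filter (fun i => x i ≠ y i), q x i)
    (x y : Fin N → Bool) :
    (p x - p y) ^ 2 / 16 ≤ ∑ i ∈ univ.filter (fun i => x i ≠ y i), Real.sqrt (q x i * q y i) := by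
  have h1 := min_of_cert p q hq hc x y
  have h2 : ∑ i ∈ univ.filter (fun i => x i ≠ y i), min (q x i) (q y i)
      ≤ ∑ i ∈ univ.filter (fun i => x i ≠ y i), Real.sqrt (q x i * q y i) := by
    refine Finset.sum_le_sum (fun i _ => ?_)
    refine Real.le_sqrt_of_sq_le ?_
    rw [sq]
    exact mul_le_mul (min_le_left _ _) (min_le_right _ _) (le_min (hq x i) (hq y i)) (hq x i)
  have h3 : (p x - p y) ^ 2 / 16 ≤ |p x - p y| := by
    rw [← sq_abs]
    have h4 : |p x - p y| ≤ 1 := by
      rw [abs_le]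
      constructor <;> linarith [hp0 x, hp1 x, hp0 y, hp1 y]
    have h5 := abs_nonneg (p x - p y)
    nlinarith
  exact h3.trans (h1.trans h2)

end Pool.Agent.H.MP_58d537_lc.AAP
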