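import Pool.Agent.H.MP_58d537_lc.AAP.CertF
import Pool.Agent.H.MP_58d537_lc.AAP.Hyb
import Pool.Agent.H.MP_58d537_lc.AAP.AvgB
import Pool.Agent.H.MP_58d537_lc.R67.Lit

/-!
# The Aaronson–Ambainis inequality for functions with fractional certificates
-/

set_option autoImplicit false

namespace Pool.Agent.H.MP_58d537_lc.AAP

open Finset Pool.Agent.H.MP_58d537_lc.A20 Pool.Agent.H.MP_58d537_lc.R67

/-- Let `0 ≤ p ≤ 1` have fractional certificates `q` of total weight `≤ T`, `Var p = 2v > 0`. Then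
some influence is at least `v τ / T`, `τ = v^24 / (2^93 T^7)`.
Proof. `H = {i | τ < avg (q · i)}`, `|H| τ ≤ ∑ avg q_i ≤ T`. `light_var` for `avH H p`, `qH H q`
(`adv_of_cert`, `cert_avH`, `qH_nonneg`, `qH_sum`, `avg_qH`) gives `Var (avH H p) ≤ v`. By
`efron_part` and `avg_avH`: `2v = Var p ≤ v + ∑_{i ∈ H} Inf_i`. So `H` is nonempty and some
`i ∈ H` has `Inf_i ≥ v / |H| ≥ v τ / T`. -/
theorem AA_cert {N : ℕ} (p : (Fin N → Bool) → ℝ) (q : (Fin N → Bool) → Fin N → ℝ)
    (T : ℝ) (hT : 1 ≤ T) (hp0 : ∀ x, 0 ≤ p x) (hp1 : ∀ x, p x ≤ 1)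
    (hq : ∀ x i, 0 ≤ q x i) (hqT : ∀ x, ∑ i, q x i ≤ T)
    (hc : ∀ x y, |p x - p y| ≤ ∑ i ∈ univ.filter (fun i => x i ≠ y i), q x i)
    (v : ℝ) (hv : 0 < v) (hv1 : v ≤ 1)
    (hvar : avg (fun x => p x ^ 2) - avg p ^ 2 = 2 * v) :
    ∃ i : Fin N, v * (v ^ 24 / (2 ^ 93 * T ^ 7)) / T ≤
      avg (fun x => ((p x - p (flip x i)) / 2) ^ 2) := by
  classical
  have hT0 : (0 : ℝ) < T := lt_of_lt_of_le one_pos hT
  set τ : ℝ := v ^ 24 / (2 ^ 93 * T ^ 7) with hτ
  have hτ0 : 0 < τ := by positivity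
  set H : Finset (Fin N) := univ.filter (fun i => τ < avg (fun x => q x i)) with hH
  -- the cardinality of `H`
  have hcard : (H.card : ℝ) * τ ≤ T := by
    have h1 : (H.card : ℝ) * τ ≤ ∑ i ∈ H, avg (fun x => q x i) := by
      rw [← nsmul_eq_mul, ← Finset.sum_const]
      exact Finset.sum_le_sum fun i hi => (Finset.mem_filter.mp hi).2.le
    have h2 : ∑ i ∈ H, avg (fun x => q x i) ≤ ∑ i, avg (fun x => q x i) :=
      Finset.sum_le_sum_of_subset_of_nonneg (Finset.subset_univ _)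
        fun i _ _ => avg_nonneg fun x => hq x i
    have h3 : ∑ i, avg (fun x => q x i) ≤ T := by
      rw [← avg_sum univ (fun i x => q x i)]
      calc avg (fun x => ∑ i, q x i) ≤ avg (fun _ : Fin N → Bool => T) := avg_mono hqT
        _ = T := avg_const T
    linarith
  -- the averaged function has small variance
  have ha0 : ∀ x, 0 ≤ avH H p x := fun x => avg_nonneg fun h => hp0 _
  have ha1 : ∀ x, avH H p x ≤ 1 := fun x => by
    calc avH H p x = avg (fun h => p (ov H h x)) := rfl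
      _ ≤ avg (fun _ : Fin N → Bool => (1 : ℝ)) := avg_mono fun h => hp1 _
      _ = 1 := avg_const 1
  have hlight : ∀ i, avg (fun x => qH H q x i) ≤ v ^ 24 / (2 ^ 93 * T ^ 7) := by
    refine avg_qH H q τ hτ0.le ?_
    intro i hi
    by_contra hcon
    push Not at hcon
    exact hi (by rw [hH]; exact Finset.mem_filter.mpr ⟨Finset.mem_univ i, hcon⟩)
  have hsmall : avg (fun x => avH H p x ^ 2) - avg (avH H p) ^ 2 ≤ v :=
    light_var N (avH H p) (qH H q) T hT ha0 ha1 (qH_nonneg H q hq) (qH_sum H q T hq hqT)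
      (adv_of_cert (avH H p) (qH H q) ha0 ha1 (qH_nonneg H q hq) (cert_avH H p q hq hc))
      v hv hv1 hlight
  rw [avg_avH H p] at hsmall
  have hef := efron_part H p
  have hsum : v ≤ ∑ i ∈ H, avg (fun x => ((p x - p (flip x i)) / 2) ^ 2) := by linarith
  by_contra hcon
  push Not at hcon
  have hbound : ∑ i ∈ H, avg (fun x => ((p x - p (flip x i)) / 2) ^ 2) < v := by
    rcases H.eq_empty_or_nonempty with h0 | h0
    · rw [h0]; simpa using hv
    · calc ∑ i ∈ H, avg (fun x => ((p x - p (flip x i)) / 2) ^ 2)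
          < ∑ _i ∈ H, v * τ / T := Finset.sum_lt_sum_of_nonempty h0 fun i _ => hcon i
        _ = (H.card : ℝ) * τ * v / T := by
          rw [Finset.sum_const, nsmul_eq_mul]; ring
        _ ≤ T * v / T := by gcongr
        _ = v := by field_simp
  linarith

/-- **The Aaronson–Ambainis conjecture.** For `|f| ≤ 1` of Fourier degree `≤ d`, `d ≥ 1`,
`Var f > 0`: apply `AA_cert` to `p = (1 + f)/2`, `q = w/2` (`cert`), `T = 32 d²`,
`v = Var f / 8`; `Inf_i f = 4 Inf_i p ≥ 4 v^25 / (2^93 T^8) = Var^25 / (2^206 d^16)`. -/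
theorem AA {N d : ℕ} (hd : 1 ≤ d) (f : (Fin N → Bool) → ℝ) (hb : ∀ x, |f x| ≤ 1)
    (hf : ∀ S : Finset (Fin N), d < S.card →
      ∑ y : Fin N → Bool, f y * ∏ i ∈ S, (-1 : ℝ) ^ (y i).toNat = 0)
    (V : ℝ) (hV : V = avg (fun x => f x ^ 2) - avg f ^ 2) (hV0 : 0 < V) :
    ∃ i : Fin N, V ^ 25 / (2 ^ 206 * (d : ℝ) ^ 16) ≤
      avg (fun x => ((f x - f (flip x i)) / 2) ^ 2) := by
  obtain ⟨w, hw, hwd, hc⟩ := cert hd f hb hf
  have hd1 : (1 : ℝ) ≤ d := by exact_mod_cast hd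
  have hd0 : (0 : ℝ) < d := lt_of_lt_of_le one_pos hd1
  have hV1 : V ≤ 1 := by
    have h1 : avg (fun x => f x ^ 2) ≤ 1 := by
      calc avg (fun x => f x ^ 2) ≤ avg (fun _ : Fin N → Bool => (1 : ℝ)) :=
            avg_mono fun x => by
              have := abs_le.mp (hb x)
              nlinarith [this.1, this.2]
        _ = 1 := avg_const 1
    nlinarith [sq_nonneg (avg f)]
  have hp0 : ∀ x, 0 ≤ (1 + f x) / 2 := fun x => by
    have := (abs_le.mp (hb x)).1
    linarith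
  have hp1 : ∀ x, (1 + f x) / 2 ≤ 1 := fun x => by
    have := (abs_le.mp (hb x)).2
    linarith
  have hvar : avg (fun x => ((1 + f x) / 2) ^ 2) - avg (fun x => (1 + f x) / 2) ^ 2 =
      2 * (V / 8) := by
    have e1 : avg (fun x => ((1 + f x) / 2) ^ 2) =
        1 / 4 + 1 / 2 * avg f + 1 / 4 * avg (fun x => f x ^ 2) := by
      have : (fun x => ((1 + f x) / 2) ^ 2) =
          fun x => (1 / 4 + 1 / 2 * f x) + 1 / 4 * f x ^ 2 := by
        funext x; ring
      rw [this, avg_add, avg_add, avg_const, avg_const_mul, avg_const_mul]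
    have e2 : avg (fun x => (1 + f x) / 2) = 1 / 2 + 1 / 2 * avg f := by
      have : (fun x => (1 + f x) / 2) = fun x => 1 / 2 + 1 / 2 * f x := by
        funext x; ring
      rw [this, avg_add, avg_const, avg_const_mul]
    rw [e1, e2, hV]; ring
  obtain ⟨i, hi⟩ := AA_cert (fun x => (1 + f x) / 2) (fun x i => w x i / 2) (32 * (d : ℝ) ^ 2)
    (by nlinarith) hp0 hp1 (fun x i => by have := hw x i; linarith)
    (fun x => by
      rw [← Finset.sum_div]
      have := hwd x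
      linarith)
    (fun x y => by
      rw [← Finset.sum_div]
      have h1 := hc x y
      have h2 : (1 + f x) / 2 - (1 + f y) / 2 = (f x - f y) / 2 := by ring
      rw [h2, abs_div, abs_two]
      exact div_le_div_of_nonneg_right h1 (by norm_num))
    (V / 8) (by linarith) (by linarith) hvar
  refine ⟨i, ?_⟩
  have e3 : avg (fun x => (((1 + f x) / 2 - (1 + f (flip x i)) / 2) / 2) ^ 2) =
      1 / 4 * avg (fun x => ((f x - f (flip x i)) / 2) ^ 2) := by
    rw [← avg_const_mul]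
    congr 1
    funext x
    ring
  rw [e3] at hi
  have e4 : V / 8 * ((V / 8) ^ 24 / (2 ^ 93 * (32 * (d : ℝ) ^ 2) ^ 7)) / (32 * (d : ℝ) ^ 2) =
      1 / 4 * (V ^ 25 / (2 ^ 206 * (d : ℝ) ^ 16)) := by
    field_simp
    norm_num
  rw [e4] at hi
  linarith

end Pool.Agent.H.MP_58d537_lc.AAP
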