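import Pool.Agent.H.MP_58d537_lc.AAP.Main
import Pool.Agent.H.MP_58d537_lc.R67.Fin

/-!
# Real polynomials in the bits
-/

set_option autoImplicit false

namespace Pool.Agent.H.MP_58d537_lc.AAP

open Finset Pool.Agent.H.MP_58d537_lc.A20 Pool.Agent.H.MP_58d537_lc.R67

/-- `f` is a real (multilinear) polynomial of degree at most `d` in the bits `x i ∈ {0, 1}`. -/
def IsPoly {N : ℕ} (d : ℕ) (f : (Fin N → Bool) → ℝ) : Prop :=
  ∃ c : Finset (Fin N) → ℝ, (∀ A, d < A.card → c A = 0) ∧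
    ∀ x, f x = ∑ A, c A * ∏ i ∈ A, (if x i then (1 : ℝ) else 0)

theorem sum_monomials {N : ℕ} (c : Finset (Fin N) → ℝ) (x : Fin N → Bool) :
    ∑ A, c A * ∏ i ∈ A, (if x i then (1 : ℝ) else 0) =
      ∑ A ∈ (univ.filter (fun i => x i = true)).powerset, c A := by
  rw [← Finset.sum_subset (Finset.subset_univ (univ.filter (fun i => x i = true)).powerset)]
  · refine Finset.sum_congr rfl fun A hA => ?_
    have hA' := Finset.mem_powerset.mp hA
    have h1 : ∏ i ∈ A, (if x i then (1 : ℝ) else 0) = 1 := by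
      refine Finset.prod_eq_one fun i hi => ?_
      have := (Finset.mem_filter.mp (hA' hi)).2
      simp [this]
    rw [h1, mul_one]
  · intro A _ hA
    have hA' : ¬ A ⊆ univ.filter (fun i => x i = true) := fun h => hA (Finset.mem_powerset.mpr h)
    obtain ⟨i, hi, hix⟩ := Finset.not_subset.mp hA'
    have hx : x i = false := by
      by_contra h
      exact hix (Finset.mem_filter.mpr ⟨Finset.mem_univ i, by simpa using h⟩)
    have h0 : ∏ i ∈ A, (if x i then (1 : ℝ) else 0) = 0 :=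
      Finset.prod_eq_zero hi (by simp [hx])
    rw [h0, mul_zero]

theorem isPoly_iff {N d : ℕ} (f : (Fin N → Bool) → ℝ) :
    IsPoly d f ↔ DegLe d (fun s : Finset (Fin N) => f (fun i => decide (i ∈ s))) := by
  constructor
  · rintro ⟨c, hc, hf⟩
    refine ⟨c, hc, fun s => ?_⟩
    show f _ = _
    rw [hf, sum_monomials]
    congr 2
    ext i
    simp
  · rintro ⟨c, hc, hf⟩
    refine ⟨c, hc, fun x => ?_⟩
    rw [sum_monomials]
    have h := hf (univ.filter (fun i => x i = true))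
    rw [← h]
    show f x = f _
    congr 1
    funext i
    simp

/-- A polynomial has the same degree in the flip pattern around any point. -/
theorem degLe_flipS {N d : ℕ} {f : (Fin N → Bool) → ℝ} (hf : IsPoly d f) (x : Fin N → Bool) :
    DegLe d (fun B => f (flipS x B)) := by
  obtain ⟨c, hc, hf⟩ := hf
  have h1 : ∀ i : Fin N, DegLe 1 (fun B : Finset (Fin N) =>
      (if flipS x B i then (1 : ℝ) else 0)) := by
    intro i
    have e : (fun B : Finset (Fin N) => (if flipS x B i then (1 : ℝ) else 0)) =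
        fun B => (if x i then (1 : ℝ) else 0) +
          (if x i then (-1 : ℝ) else 1) * (if i ∈ B then (1 : ℝ) else 0) := by
      funext B
      by_cases hB : i ∈ B
      · cases hx : x i <;> simp [flipS, hB, hx]
      · cases hx : x i <;> simp [flipS, hB, hx]
    rw [e]
    exact ((degLe_const (ι := Fin N) _).mono (Nat.zero_le 1)).add ((degLe_mem i).smul _)
  have h2 : (fun B : Finset (Fin N) => f (flipS x B)) = fun B =>
      ∑ A : Finset (Fin N), c A * ∏ i ∈ A, (if flipS x B i then (1 : ℝ) else 0) := by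
    funext B
    exact hf (flipS x B)
  rw [h2]
  refine DegLe.sum _ _ fun A _ => ?_
  by_cases hA : d < A.card
  · have e : (fun B : Finset (Fin N) =>
        c A * ∏ i ∈ A, (if flipS x B i then (1 : ℝ) else 0)) = fun _ => 0 := by
      funext B
      rw [hc A hA, zero_mul]
    rw [e]
    exact (degLe_const (ι := Fin N) 0).mono (Nat.zero_le d)
  · refine DegLe.smul _ ?_
    have h3 := DegLe.prod (k := 1) A
      (fun i (B : Finset (Fin N)) => (if flipS x B i then (1 : ℝ) else 0)) fun i _ => h1 i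
    exact h3.mono (by omega)

/-- Fractional certificates of a polynomial with values in `[0, 1]`. -/
theorem cert01 {N d : ℕ} (hd : 1 ≤ d) (f : (Fin N → Bool) → ℝ) (hf : IsPoly d f)
    (h0 : ∀ x, 0 ≤ f x) (h1 : ∀ x, f x ≤ 1) :
    ∃ w : (Fin N → Bool) → Fin N → ℝ, (∀ x i, 0 ≤ w x i) ∧
      (∀ x, ∑ i, w x i ≤ 32 * (d : ℝ) ^ 2) ∧
      ∀ x y, |f x - f y| ≤ ∑ i ∈ univ.filter (fun i => x i ≠ y i), w x i := by
  have key : ∀ x : Fin N → Bool, ∃ w : Fin N → ℝ, (∀ i, 0 ≤ w i) ∧
      ∑ i, w i ≤ 64 * (d : ℝ) ^ 2 ∧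
      ∀ B : Finset (Fin N), |(2 * f (flipS x B) + -1) - (2 * f (flipS x ∅) + -1)| ≤
        ∑ i ∈ B, w i := fun x =>
    cert_point d hd (fun B => 2 * f (flipS x B) + -1)
      (((degLe_flipS hf x).smul 2).add ((degLe_const (ι := Fin N) (-1)).mono (Nat.zero_le d)))
      (fun B => by
        rw [abs_le]
        constructor
        · have := h0 (flipS x B); linarith
        · have := h1 (flipS x B); linarith)
  choose w k1 k2 k3 using key
  refine ⟨fun x i => w x i / 2, fun x i => by have := k1 x i; positivity, fun x => ?_,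
    fun x y => ?_⟩
  · rw [← Finset.sum_div]
    have := k2 x
    linarith
  have e1 : flipS x ∅ = x := by
    funext i
    simp [flipS]
  have e2 : flipS x (univ.filter (fun i => x i ≠ y i)) = y := by
    funext i
    by_cases h : x i = y i
    · simp [flipS, h]
    · have h' : (!(x i)) = y i := by
        cases hx : x i <;> cases hy : y i <;> simp_all
      simp [flipS, h, h']
  have h := k3 x (univ.filter (fun i => x i ≠ y i))
  rw [e1, e2] at h
  rw [← Finset.sum_div]
  have e3 : (2 * f y + -1) - (2 * f x + -1) = 2 * (f y - f x) := by ring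
  rw [e3, abs_mul, abs_two, abs_sub_comm] at h
  linarith

/-- The influence inequality for polynomials with values in `[0, 1]`. -/
theorem influence01 {N d : ℕ} (hd : 1 ≤ d) (f : (Fin N → Bool) → ℝ) (hf : IsPoly d f)
    (h0 : ∀ x, 0 ≤ f x) (h1 : ∀ x, f x ≤ 1) (V : ℝ)
    (hV : V = avg (fun x => (f x - avg f) ^ 2)) (hV0 : 0 < V) :
    ∃ i : Fin N, V ^ 25 / (2 ^ 156 * (d : ℝ) ^ 16) ≤
      avg (fun x => (f x - f (flip x i)) ^ 2) := by
  obtain ⟨w, hw, hwd, hc⟩ := cert01 hd f hf h0 h1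
  have hd1 : (1 : ℝ) ≤ d := by exact_mod_cast hd
  have hd0 : (0 : ℝ) < d := lt_of_lt_of_le one_pos hd1
  have hV' : V = avg (fun x => f x ^ 2) - avg f ^ 2 := by
    rw [hV]
    have : (fun x => (f x - avg f) ^ 2) =
        fun x => (f x ^ 2 + (-2 * avg f) * f x) + avg f ^ 2 := by
      funext x; ring
    rw [this, avg_add, avg_add, avg_const, avg_const_mul]
    ring
  have hV1 : V ≤ 1 := by
    have h3 : avg (fun x => f x ^ 2) ≤ 1 := by
      calc avg (fun x => f x ^ 2) ≤ avg (fun _ : Fin N → Bool => (1 : ℝ)) :=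
            avg_mono fun x => by
              nlinarith [h0 x, h1 x]
        _ = 1 := avg_const 1
    nlinarith [sq_nonneg (avg f)]
  obtain ⟨i, hi⟩ := AA_cert f w (32 * (d : ℝ) ^ 2) (by nlinarith) h0 h1 hw hwd hc
    (V / 2) (by linarith) (by linarith) (by rw [← hV']; ring)
  refine ⟨i, ?_⟩
  have e3 : avg (fun x => ((f x - f (flip x i)) / 2) ^ 2) =
      1 / 4 * avg (fun x => (f x - f (flip x i)) ^ 2) := by
    rw [← avg_const_mul]
    congr 1
    funext x
    ring
  rw [e3] at hi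
  have e4 : V / 2 * ((V / 2) ^ 24 / (2 ^ 93 * (32 * (d : ℝ) ^ 2) ^ 7)) / (32 * (d : ℝ) ^ 2) =
      1 / 4 * (V ^ 25 / (2 ^ 156 * (d : ℝ) ^ 16)) := by
    field_simp
    norm_num
  rw [e4] at hi
  linarith

/-- Bit fixing for polynomials with values in `[0, 1]`. -/
theorem fixing01 {N d : ℕ} (hd : 1 ≤ d) (f : (Fin N → Bool) → ℝ) (hf : IsPoly d f)
    (h0 : ∀ x, 0 ≤ f x) (h1 : ∀ x, f x ≤ 1) (V : ℝ)
    (hV : V = avg (fun x => (f x - avg f) ^ 2)) (hV0 : 0 < V) :
    ∃ (S : Finset (Fin N)) (a : Fin N → Bool),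
      (S.card : ℝ) ≤ 2 ^ 183 * (d : ℝ) ^ 16 / V ^ 25 ∧
      V / 2 ≤ (avg (fun x => f (ov S a x)) - avg f) ^ 2 := by
  obtain ⟨w, hw, hwd, hc⟩ := cert01 hd f hf h0 h1
  have hd1 : (1 : ℝ) ≤ d := by exact_mod_cast hd
  have hd0 : (0 : ℝ) < d := lt_of_lt_of_le one_pos hd1
  have hV1 : V ≤ 1 := by
    rw [hV]
    have hE0 : 0 ≤ avg f := avg_nonneg h0
    have hE1 : avg f ≤ 1 := (avg_mono h1).trans (by rw [avg_const])
    calc avg (fun x => (f x - avg f) ^ 2) ≤ avg (fun _ : Fin N → Bool => (1 : ℝ)) :=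
          avg_mono fun x => by nlinarith [h0 x, h1 x]
      _ = 1 := avg_const 1
  have hT : (1 : ℝ) ≤ 32 * (d : ℝ) ^ 2 := by nlinarith
  have hadv := adv_of_cert f w h0 h1 hw hc
  obtain ⟨S, a, hS, hdev⟩ := bit_fixing f w (32 * (d : ℝ) ^ 2) hT h0 h1 hw hwd V
    ((V / 4) ^ 24 / (2 ^ 93 * (32 * (d : ℝ) ^ 2) ^ 7)) (by positivity) hV hV0
    (fun S a hl => light_var_sub f w (32 * (d : ℝ) ^ 2) hT h0 h1 hw hwd hadv (V / 4)
      (by positivity) (by linarith) S a hl)
  refine ⟨S, a, hS.trans (le_of_eq ?_), hdev⟩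
  field_simp
  norm_num

end Pool.Agent.H.MP_58d537_lc.AAP
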