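import Pool.Agent.H.MP_58d537_lc.AAP.Poly

/-!
# Quantum query algorithms with the oracle `|i, b, w⟩ ↦ |i, b ⊕ x_i, w⟩` and the polynomial method
-/

set_option autoImplicit false

namespace Pool.Agent.H.MP_58d537_lc.AAP

open Finset Matrix Pool.Agent.H.MP_58d537_lc.A20

/-- The oracle unitary `O_x : |i, b, w⟩ ↦ |i, b ⊕ x_i, w⟩`. -/
def oracle {N m : ℕ} (x : Fin N → Bool) :
    Matrix (Fin N × Bool × Fin m) (Fin N × Bool × Fin m) ℂ :=
  fun s t => if s = (t.1, xor t.2.1 (x t.1), t.2.2) then 1 else 0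

/-- The state `U_t O_x U_{t-1} ⋯ O_x U_0 |s₀⟩` after `t` queries. -/
noncomputable def state {N m : ℕ} (U : ℕ → Matrix.unitaryGroup (Fin N × Bool × Fin m) ℂ)
    (s₀ : Fin N × Bool × Fin m) (x : Fin N → Bool) : ℕ → (Fin N × Bool × Fin m → ℂ)
  | 0 => (U 0).1 *ᵥ Pi.single s₀ 1
  | t + 1 => (U (t + 1)).1 *ᵥ (oracle x *ᵥ state U s₀ x t)

/-- The acceptance probability after `T` queries. -/
noncomputable def acc {N m : ℕ} (U : ℕ → Matrix.unitaryGroup (Fin N × Bool × Fin m) ℂ)
    (s₀ : Fin N × Bool × Fin m) (Acc : Finset (Fin N × Bool × Fin m)) (T : ℕ)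
    (x : Fin N → Bool) : ℝ := ∑ s ∈ Acc, ‖state U s₀ x T s‖ ^ 2

theorem oracle_mulVec {N m : ℕ} (x : Fin N → Bool) (v : Fin N × Bool × Fin m → ℂ)
    (s : Fin N × Bool × Fin m) :
    (oracle x *ᵥ v) s = v (s.1, xor s.2.1 (x s.1), s.2.2) := by
  unfold Matrix.mulVec dotProduct oracle
  rw [Finset.sum_eq_single (s.1, xor s.2.1 (x s.1), s.2.2)]
  · have : s = (s.1, xor (xor s.2.1 (x s.1)) (x s.1), s.2.2) := by
      rcases s with ⟨i, b, w⟩
      simp
    simp only [← this, if_true, one_mul]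
  · intro t _ ht
    have : s ≠ (t.1, xor t.2.1 (x t.1), t.2.2) := by
      intro h
      apply ht
      rcases s with ⟨i, b, w⟩
      rcases t with ⟨j, c, u⟩
      simp only [Prod.mk.injEq] at h
      obtain ⟨rfl, rfl, rfl⟩ := h
      simp
    show (if s = (t.1, xor t.2.1 (x t.1), t.2.2) then (1 : ℂ) else 0) * v t = 0
    rw [if_neg this, zero_mul]
  · intro h
    exact absurd (Finset.mem_univ _) h

theorem norm_unitary {ι : Type*} [Fintype ι] [DecidableEq ι] (U : Matrix.unitaryGroup ι ℂ)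
    (v : ι → ℂ) : ∑ s, ‖(U.1 *ᵥ v) s‖ ^ 2 = ∑ s, ‖v s‖ ^ 2 := by
  have key : star (U.1 *ᵥ v) ⬝ᵥ (U.1 *ᵥ v) = star v ⬝ᵥ v := by
    rw [Matrix.star_mulVec, Matrix.dotProduct_mulVec, Matrix.vecMul_vecMul,
      ← Matrix.star_eq_conjTranspose, Matrix.UnitaryGroup.star_mul_self, Matrix.vecMul_one]
  have conv : ∀ u : ι → ℂ, star u ⬝ᵥ u = ((∑ s, ‖u s‖ ^ 2 : ℝ) : ℂ) := by
    intro u
    unfold dotProduct
    rw [Complex.ofReal_sum]
    refine Finset.sum_congr rfl fun s _ => ?_
    rw [Pi.star_apply, Complex.star_def, ← Complex.normSq_eq_conj_mul_self,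
      Complex.normSq_eq_norm_sq]
  rw [conv, conv] at key
  exact_mod_cast key

theorem norm_oracle {N m : ℕ} (x : Fin N → Bool) (v : Fin N × Bool × Fin m → ℂ) :
    ∑ s, ‖(oracle x *ᵥ v) s‖ ^ 2 = ∑ s, ‖v s‖ ^ 2 := by
  simp only [oracle_mulVec]
  let e : (Fin N × Bool × Fin m) ≃ (Fin N × Bool × Fin m) :=
    { toFun := fun s => (s.1, xor s.2.1 (x s.1), s.2.2)
      invFun := fun s => (s.1, xor s.2.1 (x s.1), s.2.2)
      left_inv := fun s => by rcases s with ⟨i, b, w⟩; simp
      right_inv := fun s => by rcases s with ⟨i, b, w⟩; simp }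
  exact Equiv.sum_comp e (fun s => ‖v s‖ ^ 2)

theorem norm_state {N m : ℕ} (U : ℕ → Matrix.unitaryGroup (Fin N × Bool × Fin m) ℂ)
    (s₀ : Fin N × Bool × Fin m) (x : Fin N → Bool) (t : ℕ) :
    ∑ s, ‖state U s₀ x t s‖ ^ 2 = 1 := by
  induction t with
  | zero =>
    rw [state, norm_unitary]
    rw [Finset.sum_eq_single s₀]
    · simp
    · intro s _ hs
      simp [hs]
    · intro h
      exact absurd (Finset.mem_univ _) h
  | succ t ih => rw [state, norm_unitary, norm_oracle, ih]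

theorem acc_nonneg {N m : ℕ} (U : ℕ → Matrix.unitaryGroup (Fin N × Bool × Fin m) ℂ)
    (s₀ : Fin N × Bool × Fin m) (Acc : Finset (Fin N × Bool × Fin m)) (T : ℕ)
    (x : Fin N → Bool) : 0 ≤ acc U s₀ Acc T x :=
  Finset.sum_nonneg fun _ _ => sq_nonneg _

theorem acc_le_one {N m : ℕ} (U : ℕ → Matrix.unitaryGroup (Fin N × Bool × Fin m) ℂ)
    (s₀ : Fin N × Bool × Fin m) (Acc : Finset (Fin N × Bool × Fin m)) (T : ℕ)
    (x : Fin N → Bool) : acc U s₀ Acc T x ≤ 1 := by
  rw [← norm_state U s₀ x T]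
  exact Finset.sum_le_sum_of_subset_of_nonneg (Finset.subset_univ _) fun _ _ _ => sq_nonneg _

/-- Real and imaginary parts of a linear image. -/
theorem degLe_mulVec {N : ℕ} {ι : Type*} [Fintype ι] (M : Matrix ι ι ℂ) (k : ℕ)
    (v : Finset (Fin N) → ι → ℂ)
    (h : ∀ s, DegLe k (fun A => (v A s).re) ∧ DegLe k (fun A => (v A s).im)) (s : ι) :
    DegLe k (fun A => ((M *ᵥ v A) s).re) ∧ DegLe k (fun A => ((M *ᵥ v A) s).im) := by
  constructor
  · have e : (fun A => ((M *ᵥ v A) s).re) =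
        fun A => ∑ t, ((M s t).re * (v A t).re + (-(M s t).im) * (v A t).im) := by
      funext A
      unfold Matrix.mulVec dotProduct
      rw [Complex.re_sum]
      refine Finset.sum_congr rfl fun t _ => ?_
      rw [Complex.mul_re]; ring
    rw [e]
    exact DegLe.sum _ _ fun t _ => ((h t).1.smul _).add ((h t).2.smul _)
  · have e : (fun A => ((M *ᵥ v A) s).im) =
        fun A => ∑ t, ((M s t).re * (v A t).im + (M s t).im * (v A t).re) := by
      funext A
      unfold Matrix.mulVec dotProduct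
      rw [Complex.im_sum]
      refine Finset.sum_congr rfl fun t _ => ?_
      rw [Complex.mul_im]
    rw [e]
    exact DegLe.sum _ _ fun t _ => ((h t).2.smul _).add ((h t).1.smul _)

/-- Amplitudes after `t` queries have degree at most `t`. -/
theorem degLe_state {N m : ℕ} (U : ℕ → Matrix.unitaryGroup (Fin N × Bool × Fin m) ℂ)
    (s₀ : Fin N × Bool × Fin m) (t : ℕ) (s : Fin N × Bool × Fin m) :
    DegLe t (fun A : Finset (Fin N) => (state U s₀ (fun i => decide (i ∈ A)) t s).re) ∧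
    DegLe t (fun A : Finset (Fin N) => (state U s₀ (fun i => decide (i ∈ A)) t s).im) := by
  induction t generalizing s with
  | zero =>
    simp only [state]
    exact ⟨degLe_const _, degLe_const _⟩
  | succ t ih =>
    simp only [state]
    refine degLe_mulVec (U (t + 1)).1 (t + 1)
      (fun A : Finset (Fin N) => oracle (fun i => decide (i ∈ A)) *ᵥ
        state U s₀ (fun i => decide (i ∈ A)) t) ?_ s
    intro s
    simp only [oracle_mulVec]
    have hx : ∀ g : (Fin N × Bool × Fin m) → Finset (Fin N) → ℝ,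
        (∀ s, DegLe t (g s)) →
        DegLe (t + 1) (fun A : Finset (Fin N) =>
          g (s.1, xor s.2.1 (decide (s.1 ∈ A)), s.2.2) A) := by
      intro g hg
      have e : (fun A : Finset (Fin N) => g (s.1, xor s.2.1 (decide (s.1 ∈ A)), s.2.2) A) =
          fun A => g (s.1, s.2.1, s.2.2) A +
            (g (s.1, !s.2.1, s.2.2) A + (-1) * g (s.1, s.2.1, s.2.2) A) *
              (if s.1 ∈ A then (1 : ℝ) else 0) := by
        funext A
        by_cases h : s.1 ∈ A
        · simp [h]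
        · simp [h]
      rw [e]
      exact ((hg _).mono (Nat.le_succ t)).add (((hg _).add ((hg _).smul (-1))).mul (degLe_mem s.1))
    exact ⟨hx (fun s A => (state U s₀ (fun i => decide (i ∈ A)) t s).re) fun s => (ih s).1,
      hx (fun s A => (state U s₀ (fun i => decide (i ∈ A)) t s).im) fun s => (ih s).2⟩

/-- **The polynomial method**: the acceptance probability has degree at most `2T`. -/
theorem isPoly_acc {N m : ℕ} (U : ℕ → Matrix.unitaryGroup (Fin N × Bool × Fin m) ℂ)
    (s₀ : Fin N × Bool × Fin m) (Acc : Finset (Fin N × Bool × Fin m)) (T : ℕ) :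
    IsPoly (2 * T) (acc U s₀ Acc T) := by
  rw [isPoly_iff]
  unfold acc
  refine DegLe.sum _ _ fun s _ => ?_
  have e : (fun A : Finset (Fin N) => ‖state U s₀ (fun i => decide (i ∈ A)) T s‖ ^ 2) =
      fun A => (state U s₀ (fun i => decide (i ∈ A)) T s).re *
          (state U s₀ (fun i => decide (i ∈ A)) T s).re +
        (state U s₀ (fun i => decide (i ∈ A)) T s).im *
          (state U s₀ (fun i => decide (i ∈ A)) T s).im := by
    funext A
    rw [← Complex.normSq_eq_norm_sq, Complex.normSq_apply]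
  rw [e, two_mul]
  obtain ⟨h1, h2⟩ := degLe_state U s₀ T s
  exact (h1.mul h1).add (h2.mul h2)

end Pool.Agent.H.MP_58d537_lc.AAP
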